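import Pool.Agent.Helper97.CG.Stmts

/-!
# Oriented charts for the orthogonal groups (MP_005e41, Spin covers): definitions and rows
-/

namespace Pool.Agent.Helper97.SPN

open MvPolynomial Matrix Pool.Agent.Helper14.RG Pool.Agent.Helper97.CG

universe u

section Defs

variable {k : Type*} [Field k] {n m : Type} [Fintype n] [DecidableEq n] [Fintype m] [DecidableEq m]

/-- `E` is an idempotent in the bicommutant of `s`. -/
structure Proj (s E : Matrix n n k) : Prop where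
  idem : E * E = E
  comm : ∀ x : Matrix n n k, s * x = x * s → E * x = x * E

lemma cm0_mul {E x y : Matrix n n k} (hE : E * E = E) (hy : E * y = y * E) :
    x * y * E + (1 - E) = (x * E + (1 - E)) * (y * E + (1 - E)) := by
  have h1 : x * E * (y * E) = x * y * E := by
    calc x * E * (y * E) = x * (E * y) * E := by simp only [Matrix.mul_assoc]
      _ = x * (y * E) * E := by rw [hy]
      _ = x * y * (E * E) := by simp only [Matrix.mul_assoc]
      _ = x * y * E := by rw [hE]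
  have h2 : x * E * (1 - E) = 0 := by
    rw [Matrix.mul_sub, Matrix.mul_one, Matrix.mul_assoc, hE, sub_self]
  have h3 : (1 - E) * (y * E) = 0 := by
    rw [Matrix.sub_mul, Matrix.one_mul, ← Matrix.mul_assoc, hy, Matrix.mul_assoc, hE, sub_self]
  have h4 : (1 - E) * (1 - E) = 1 - E := by
    rw [Matrix.mul_sub, Matrix.mul_one, Matrix.sub_mul, Matrix.one_mul, hE, sub_self, sub_zero]
  rw [Matrix.add_mul, Matrix.mul_add, Matrix.mul_add, h1, h2, h3, h4, add_zero, zero_add]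

/-- The elements commuting with `s` which have determinant one on the image of `E`. -/
def cm0 {G : Type*} [Group G] (ρ : G →* Matrix n n k) (s E : Matrix n n k) (h : Proj s E) :
    Subgroup G where
  carrier := {g | s * ρ g = ρ g * s ∧ (ρ g * E + (1 - E)).det = 1}
  mul_mem' := by
    intro a b ha hb
    have ha' : a ∈ cm ρ s := ha.1
    have hb' : b ∈ cm ρ s := hb.1
    refine ⟨(cm ρ s).mul_mem ha' hb', ?_⟩
    rw [map_mul, cm0_mul h.idem (h.comm _ hb.1), det_mul, ha.2, hb.2, one_mul]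
  one_mem' := by
    refine ⟨(cm ρ s).one_mem, ?_⟩
    rw [map_one, Matrix.one_mul, add_sub_cancel, det_one]
  inv_mem' := by
    intro a ha
    have ha' : a ∈ cm ρ s := ha.1
    have hi : a⁻¹ ∈ cm ρ s := (cm ρ s).inv_mem ha'
    refine ⟨hi, ?_⟩
    have h1 := cm0_mul (x := ρ a) (y := ρ a⁻¹) h.idem (h.comm _ hi)
    rw [← map_mul, mul_inv_cancel, map_one, Matrix.one_mul, add_sub_cancel] at h1
    have h2 := congrArg det h1
    rw [det_one, det_mul, ha.2, one_mul] at h2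
    exact h2.symm

lemma mem_cm0 {G : Type*} [Group G] {ρ : G →* Matrix n n k} {s E : Matrix n n k} {h : Proj s E}
    {g : G} : g ∈ cm0 ρ s E h ↔ s * ρ g = ρ g * s ∧ (ρ g * E + (1 - E)).det = 1 := Iff.rfl

lemma cm0_le {G : Type*} [Group G] (ρ : G →* Matrix n n k) (s E : Matrix n n k) (h : Proj s E) :
    cm0 ρ s E h ≤ cm ρ s := fun _ hg => hg.1

/-- Chart for the oriented centraliser, equivariant for the centraliser. -/
def HC0 {G : Type*} [Group G] (ρ : G →* Matrix n n k) (s E : Matrix n n k) (h : Proj s E) : Prop :=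
  HasLChart (mAlg ρ) (cm0 ρ s E h) (cm ρ s)

end Defs

variable (k : Type u) [Field k] [IsAlgClosed k] [CharZero k]

/-- OW: the oriented `p`-planes, `p ≤ q`. Proof: choose `n × (p + p + (q - p))` coordinates in which
the form is `LJ (Fin p) 1 J0` and let `a0` (an `n × p` matrix) be the first block space, with Gram
matrix `G0 = Jp`; for `x` write `x a0 = [α; M'; N']`, `M = M' α⁻¹`, `N = N' α⁻¹`,
`S = M + Mᵀ + Nᵀ J0 N = α⁻ᵀ Jp α⁻¹`, `t = (det α)⁻¹`, so `det S = det Jp * t²`. Coordinates: `N`,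
`M i j - M j i` (`i < j`), `S i j` (`i ≤ j`, `(i, j) ≠ (0, 0)`), `t`; `S 0 0` is recovered from
`det S` (linear in `S 0 0`, coefficient the minor); `q0 = det α * minor (det α² • S)`.
`x h a0 = x a0 γ` for `h` in `cm`, `det γ = det (h | A) = ± 1`, so only `t` changes, by the sign.
Existence (`dom`): `ST_EQV`, `ST_REFL` as in `Helper19/CG/W1`. For `p = 0` the group `cm0` is
everything: no coordinates. -/
def ST_OW : Prop := ∀ (p q : ℕ) (Jp : Matrix (Fin p) (Fin p) k) (Jq : Matrix (Fin q) (Fin q) k)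
  (h : Proj (fromBlocks 1 0 0 (-1) : Matrix (Fin p ⊕ Fin q) (Fin p ⊕ Fin q) k)
    (fromBlocks 1 0 0 0)), p ≤ q → IsForm 1 Jp → IsForm 1 Jq →
  HC0 (isoHom (fromBlocks Jp 0 0 Jq)) (fromBlocks 1 0 0 (-1)) (fromBlocks 1 0 0 0) h

/-- OT: change of basis (copy of `Helper52/CG/TRN`). -/
def ST_OT : Prop := ∀ (n m : Type) [Fintype n] [DecidableEq n] [Fintype m] [DecidableEq m]
  (J s E : Matrix n n k) (u : Matrix n m k) (v : Matrix m n k) (h : Proj s E)
  (h' : Proj (v * s * u) (v * E * u)), u * v = 1 → v * u = 1 →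
  HC0 (isoHom (uᵀ * J * u)) (v * s * u) (v * E * u) h' → HC0 (isoHom J) s E h

/-- ON: eigenvalues `1` and `-1` in any order (from OW and OT as in `Helper52/CG/W1N`; for `p > q`
use `cm (-s) = cm s` and `det x = det (x | A) det (x | B) = 1`). -/
def ST_ON : Prop := ∀ (w : ℕ) (Jw : Matrix (Fin w) (Fin w) k) (χ : Fin w → k)
  (h : Proj (diagonal χ) (diagonal fun j => (1 + χ j) / 2)), IsForm 1 Jw →
  (diagonal χ)ᵀ * Jw * diagonal χ = Jw → (∀ j, χ j = 1 ∨ χ j = -1) →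
  HC0 (isoHom Jw) (diagonal χ) (diagonal fun j => (1 + χ j) / 2) h

/-- OP: product of an ordinary and an oriented chart (copy of `Helper52/CG/PRD`). -/
def ST_OP : Prop := ∀ (G₁ G₂ : Type u) [Group G₁] [Group G₂] (n m : Type) [Fintype n]
  [DecidableEq n] [Fintype m] [DecidableEq m] (ρ₁ : G₁ →* Matrix n n k) (ρ₂ : G₂ →* Matrix m m k)
  (s₁ : Matrix n n k) (s₂ E₂ : Matrix m m k) (h₂ : Proj s₂ E₂)
  (h : Proj (fromBlocks s₁ 0 0 s₂) (fromBlocks 0 0 0 E₂)), HC ρ₁ s₁ → HC0 ρ₂ s₂ E₂ h₂ →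
  HC0 (pHom ρ₁ ρ₂) (fromBlocks s₁ 0 0 s₂) (fromBlocks 0 0 0 E₂) h

/-- OL: Levi reduction (copy of `Helper15/CG/LEV`, with `cm0`, `cm` in the place of `cm`, `cmm`). -/
def ST_OL : Prop := ∀ (e : ℕ) (w : Type) [Fintype w] [DecidableEq w] (Jw : Matrix w w k),
  IsForm 1 Jw → ∀ (sE : Matrix (Fin e) (Fin e) k) (sw Ew : Matrix w w k), sE.det ≠ 0 →
  swᵀ * Jw * sw = Jw →
  (∀ x ∈ cm (isoHom (LJ (Fin e) 1 Jw)) (dg sE (sEᵀ)⁻¹ sw),
    b12 (isoHom _ x) = 0 ∧ b13 (isoHom _ x) = 0 ∧ b21 (isoHom _ x) = 0 ∧ b23 (isoHom _ x) = 0 ∧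
    b31 (isoHom _ x) = 0 ∧ b32 (isoHom _ x) = 0) →
  ∀ (h' : Proj (fromBlocks sE 0 0 sw) (fromBlocks 0 0 0 Ew))
    (h : Proj (dg sE (sEᵀ)⁻¹ sw) (dg 0 0 Ew)),
  HC0 (pHom (glHom (Fin e) k) (isoHom Jw)) (fromBlocks sE 0 0 sw) (fromBlocks 0 0 0 Ew) h' →
  HC0 (isoHom (LJ (Fin e) 1 Jw)) (dg sE (sEᵀ)⁻¹ sw) (dg 0 0 Ew) h

/-- OI: the oriented chart for every isometry of finite order (from `ST_NF1` with a predicate `P`
which contains exactly one of `l`, `l⁻¹` for `l ≠ ± 1`; `GLC`, `ON`, `OP`, `OL`, `OT`). -/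
def ST_OI : Prop := ∀ (n : Type) [Fintype n] [DecidableEq n] (J s E : Matrix n n k) (h : Proj s E),
  IsForm 1 J → sᵀ * J * s = J → ∀ N : ℕ, 0 < N → s ^ N = 1 → s * E = E →
  (∀ v : n → k, s *ᵥ v = v → E *ᵥ v = v) → HC0 (isoHom J) s E h

end Pool.Agent.Helper97.SPN
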