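import Pool.Agent.Helper97.SPN.Fct3
import Pool.Agent.Helper89.SPN.LFT0

set_option autoImplicit false

/-!
# Spin covers: automorphisms of odd order and the full centre
-/

namespace Pool.Agent.Helper97.SPN

open Matrix CliffordAlgebra Pool.Agent.Helper14.RG Pool.Agent.Helper97.CG
open Pool.Agent.Helper67.SPN

universe u

/-- a regular map which is the identity modulo a finite subgroup and fixes `1` is the identity -/
lemma eq_of_mod {k : Type*} [Field k] {G : Type*} [Group G] {A : Subalgebra k (G → k)}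
    (hirr : Irr A) (hg : GrpAlg A) (hsep : ∀ x y : G, x ≠ y → ∃ a ∈ A, a x ≠ a y) {f : G → G}
    (hf : ∀ a ∈ A, (fun x => a (f x)) ∈ A) (hf1 : f 1 = 1) {Z : Subgroup G} [Finite Z]
    (h : ∀ x, ∃ z ∈ Z, f x = z * x) (x : G) : f x = x := by
  obtain ⟨w, hw⟩ := Pool.Agent.Helper89.SPN.irr_cover hirr
    (fun (w : Z) (x : G) => f x = (w : G) * x) (fun x => by
      obtain ⟨z, hz, e⟩ := h x
      exact ⟨⟨z, hz⟩, e⟩) (by
      intro w x hx
      obtain ⟨a, ha, hne⟩ := hsep _ _ hx
      refine ⟨fun y => a (f y) - a ((w : G) * y), A.sub_mem (hf a ha)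
        (Pool.Agent.Helper89.SPN.lstable_of_grp hg (w : G) a ha), sub_ne_zero.mpr hne, ?_⟩
      intro y hy
      beta_reduce
      rw [hy, sub_self])
  have h1 : (w : G) = 1 := by
    have h2 := hw 1
    rw [hf1, mul_one] at h2
    exact h2.symm
  rw [hw, h1, one_mul]

section Spin

variable {k : Type u} [Field k] [IsAlgClosed k] [CharZero k]

lemma spin_center_rho {m : ℕ} (hm : 3 ≤ m) {z : SpinG (Fin m) k}
    (hz : z ∈ Subgroup.center (SpinG (Fin m) k)) :
    isoHom 1 (rho (Fin m) k z) = 1 ∨ isoHom 1 (rho (Fin m) k z) = -1 := by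
  refine (facts_one (k := k) hm).center ?_
  rw [Subgroup.mem_center_iff] at hz ⊢
  intro g
  obtain ⟨s, rfl⟩ := rho_surjective (k := k) (n := Fin m) g
  rw [← map_mul, ← map_mul, hz]

lemma spin_center_finite {m : ℕ} (hm : 3 ≤ m) : Finite (Subgroup.center (SpinG (Fin m) k)) := by
  have h1 : Finite (Subgroup.center (IsoG (1 : Matrix (Fin m) (Fin m) k))) :=
    (facts_one hm).finite_center
  have : Finite (rho (Fin m) k).ker := by
    rw [rho_ker]
    exact zS_finite (Fin m)
  have h2 : ((rho (Fin m) k) ⁻¹' (Subgroup.center (IsoG (1 : Matrix (Fin m) (Fin m) k)) :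
      Set (IsoG (1 : Matrix (Fin m) (Fin m) k)))).Finite :=
    Pool.Agent.Helper89.SPN.fin_preimage _ (Set.toFinite _)
  have h3 : ((Subgroup.center (SpinG (Fin m) k) : Subgroup _) : Set (SpinG (Fin m) k)).Finite := by
    refine h2.subset fun z hz => ?_
    show rho (Fin m) k z ∈ Subgroup.center _
    have hz' : z ∈ Subgroup.center (SpinG (Fin m) k) := hz
    rw [Subgroup.mem_center_iff] at hz' ⊢
    intro g
    obtain ⟨s, rfl⟩ := rho_surjective (k := k) (n := Fin m) g
    rw [← map_mul, ← map_mul, hz']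
  exact h3.to_subtype

/-- The chart of a spin group for an automorphism of odd order modulo the centre. -/
theorem chart_sp_odd (hOI : ST_OI k) (hFIX : ST_FIX k) {m : ℕ} (hm : 3 ≤ m)
    {T : SpinG (Fin m) k ≃* SpinG (Fin m) k}
    (τ : IsoG (1 : Matrix (Fin m) (Fin m) k) ≃* IsoG (1 : Matrix (Fin m) (Fin m) k))
    (hτ : IsStdIso τ) (hT : ∀ x, rho (Fin m) k (T x) = τ (rho (Fin m) k x))
    (hreg : ∀ a ∈ sAlg (Fin m) k, (fun x => a (T x)) ∈ sAlg (Fin m) k) (M : ℕ) (hM : Odd M)
    (hfin : ∀ x, ∃ z ∈ Subgroup.center (SpinG (Fin m) k), T^[M] x = z * x)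
    (H' : Subgroup (SpinG (Fin m) k))
    (hH' : ∀ g, g ∈ H' ↔ ∃ z ∈ Subgroup.center (SpinG (Fin m) k), T g = z * g) :
    HasLChart (sAlg (Fin m) k) (fixSub T) H' := by
  have hcov := isCov_spin (k := k) (m := m) (by omega)
  have := spin_center_finite (k := k) hm
  have hid : ∀ x, T^[M] x = x := by
    refine eq_of_mod hcov.irr hcov.grp hcov.sep (f := T^[M]) ?_ ?_ hfin
    · have h1 : ∀ (j : ℕ), ∀ a ∈ sAlg (Fin m) k, (fun x => a (T^[j] x)) ∈ sAlg (Fin m) k := by
        intro j
        induction j with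
        | zero => intro a ha; exact ha
        | succ j ih =>
          intro a ha
          have h2 := hreg _ (ih a ha)
          exact h2
      exact h1 M
    · have h1 : ∀ j : ℕ, T^[j] 1 = 1 := by
        intro j
        induction j with
        | zero => rfl
        | succ j ih => rw [Function.iterate_succ_apply, map_one, ih]
      exact h1 M
  have hf : FormFacts (1 : Matrix (Fin m) (Fin m) k) := facts_one hm
  obtain ⟨a, ha, ha', h1⟩ := std_orth hf (by omega) hτ
  have hTa : ∀ x, isoHom 1 (rho (Fin m) k (T x)) * a = a * isoHom 1 (rho (Fin m) k x) := by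
    intro x
    rw [hT, h1, Matrix.mul_assoc, ha, Matrix.mul_one]
  have h3 : ∀ (j : ℕ) (x : SpinG (Fin m) k),
      isoHom 1 (rho (Fin m) k (T^[j] x)) * a ^ j = a ^ j * isoHom 1 (rho (Fin m) k x) := by
    intro j
    induction j with
    | zero => intro x; rw [pow_zero, Matrix.mul_one, Matrix.one_mul]; rfl
    | succ j ih =>
      intro x
      rw [Function.iterate_succ_apply]
      calc isoHom 1 (rho (Fin m) k (T^[j] (T x))) * a ^ (j + 1)
          = isoHom 1 (rho (Fin m) k (T^[j] (T x))) * a ^ j * a := by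
            rw [pow_succ, Matrix.mul_assoc]
        _ = a ^ j * (isoHom 1 (rho (Fin m) k (T x)) * a) := by rw [ih, Matrix.mul_assoc]
        _ = a ^ (j + 1) * isoHom 1 (rho (Fin m) k x) := by
            rw [hTa, pow_succ, Matrix.mul_assoc]
  have haa : ∀ j : ℕ, (a ^ j)ᵀ * a ^ j = 1 := by
    intro j
    induction j with
    | zero => rw [pow_zero, transpose_one, Matrix.mul_one]
    | succ j ih =>
      calc (a ^ (j + 1))ᵀ * a ^ (j + 1) = aᵀ * ((a ^ j)ᵀ * a ^ j) * a := by
            rw [pow_succ, transpose_mul]; simp only [Matrix.mul_assoc]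
        _ = 1 := by rw [ih, Matrix.mul_one, ha]
  refine chart_sp hOI hFIX hm τ hτ hT hreg M hM.pos (fun x => ⟨1, one_mem _, by
    rw [hid, one_mul]⟩) H' fun g => ?_
  rw [hH']
  constructor
  · rintro ⟨z, hz, e⟩
    refine ⟨z, ?_, e⟩
    rw [← rho_ker, MonoidHom.mem_ker]
    apply isoHom_inj 1
    rcases spin_center_rho hm hz with h4 | h4
    · rw [h4, map_one]
    · exfalso
      have h5 : ∀ (j : ℕ), isoHom 1 (rho (Fin m) k (T^[j] g))
          = ((-1 : k) ^ j) • isoHom 1 (rho (Fin m) k g) := by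
        intro j
        have h6 : T g = z * g := e
        have h7 : ∀ j : ℕ, a ^ j * isoHom 1 (rho (Fin m) k g)
            = ((-1 : k) ^ j) • (isoHom 1 (rho (Fin m) k g) * a ^ j) := by
          intro j
          induction j with
          | zero => rw [pow_zero, pow_zero, one_smul, Matrix.mul_one, Matrix.one_mul]
          | succ j ih =>
            have h8 := hTa g
            rw [h6, map_mul, map_mul, h4, neg_mul, neg_mul, Matrix.one_mul] at h8
            calc a ^ (j + 1) * isoHom 1 (rho (Fin m) k g)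
                = a ^ j * (a * isoHom 1 (rho (Fin m) k g)) := by
                  rw [pow_succ, Matrix.mul_assoc]
              _ = -(a ^ j * isoHom 1 (rho (Fin m) k g)) * a := by
                  rw [← h8, Matrix.mul_neg, Matrix.neg_mul, Matrix.mul_assoc]
              _ = ((-1 : k) ^ (j + 1)) • (isoHom 1 (rho (Fin m) k g) * a ^ (j + 1)) := by
                  rw [ih, Matrix.neg_mul, Matrix.smul_mul, Matrix.mul_assoc, ← pow_succ,
                    pow_succ (-1 : k), mul_neg_one, neg_smul]
        have h9 : a ^ j * (a ^ j)ᵀ = 1 := mul_eq_one_comm.mp (haa j)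
        calc isoHom 1 (rho (Fin m) k (T^[j] g))
            = isoHom 1 (rho (Fin m) k (T^[j] g)) * a ^ j * (a ^ j)ᵀ := by
              rw [Matrix.mul_assoc, h9, Matrix.mul_one]
          _ = ((-1 : k) ^ j) • isoHom 1 (rho (Fin m) k g) := by
              rw [h3, h7, Matrix.smul_mul, Matrix.mul_assoc, h9, Matrix.mul_one]
      have h6 := h5 M
      rw [hid, hM.neg_one_pow, neg_smul, one_smul] at h6
      have h7 : isoHom 1 (rho (Fin m) k g) = 0 := by
        have h8 : (2 : k) • isoHom 1 (rho (Fin m) k g) = 0 := by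
          rw [two_smul]
          nth_rewrite 1 [h6]
          exact neg_add_cancel _
        exact (smul_eq_zero.mp h8).resolve_left two_ne_zero
      have h8 : (isoHom 1 (rho (Fin m) k g)).det = 1 := isoHom_det 1 _
      rw [h7] at h8
      have : Nonempty (Fin m) := ⟨⟨0, by omega⟩⟩
      rw [Matrix.det_zero] at h8
      exact zero_ne_one h8
  · rintro ⟨z, hz, e⟩
    exact ⟨z, zS_le_center hz, e⟩

end Spin

end Pool.Agent.Helper97.SPN
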