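import Pool.Agent.Helper97.SPN.Stmts2
import Pool.Agent.Helper67.SPN.Ta
import Pool.Agent.Helper96.SPN.NRM
import Pool.Agent.Helper72.SPN.IRRS

set_option autoImplicit false

/-!
# Spin covers: the factors (classical groups and spin groups) and the lifts of isomorphisms
-/

namespace Pool.Agent.Helper97.SPN

open Matrix CliffordAlgebra Pool.Agent.Helper14.RG Pool.Agent.Helper97.CG
open Pool.Agent.Helper67.SPN

universe u

section Cov

variable {k : Type*} [Field k]

lemma isCov_id {G : Type*} [Group G] {B : Subalgebra k (G → k)} (h1 : Irr B) (h2 : RStable B)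
    (h3 : GrpAlg B) (h4 : ∀ x y : G, x ≠ y → ∃ a ∈ B, a x ≠ a y) :
    IsCov B B (MonoidHom.id G) where
  surj := fun g => ⟨g, rfl⟩
  fin := by
    have h : (MonoidHom.id G).ker = ⊥ := by
      rw [MonoidHom.ker_eq_bot_iff]
      exact fun _ _ h => h
    rw [h]
    infer_instance
  pull := fun _ hf => hf
  desc := fun _ hf => hf
  irr := h1
  rst := h2
  grp := h3
  sep := h4

lemma iso_sep {n : ℕ} (J : Matrix (Fin n) (Fin n) k) (x y : IsoG J) (h : x ≠ y) :
    ∃ a ∈ mAlg (isoHom J), a x ≠ a y := by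
  by_contra hcon
  push Not at hcon
  apply h
  apply isoHom_inj J
  ext a b
  exact hcon _ (iso_entry_mem J a b)

lemma isCov_iso {n : ℕ} {J : Matrix (Fin n) (Fin n) k} (h1 : Irr (mAlg (isoHom J))) :
    IsCov (mAlg (isoHom J)) (mAlg (isoHom J)) (MonoidHom.id (IsoG J)) :=
  isCov_id h1 (iso_rstable J) (iso_grpAlg J) (iso_sep J)

end Cov

section Spin

variable {k : Type*} [Field k] [IsAlgClosed k] [CharZero k]

/-- the element `-1` -/
lemma exists_m1 {n : Type} [Fintype n] [DecidableEq n] (hn : 1 ≤ Fintype.card n) :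
    ∃ z : SpinG n k, (z : Cln n k) = -1 := by
  obtain ⟨v, hv⟩ := Pool.Agent.Helper72.SPN.exists_unit (k := k) hn
  refine ⟨Pool.Agent.Helper72.SPN.mkS v v hv hv, ?_⟩
  rw [Pool.Agent.Helper72.SPN.mkS_coe, ι_sq, hv, map_neg, map_one]

omit [IsAlgClosed k] [CharZero k] in
lemma zS_finite (n : Type) [Fintype n] : Finite (zS n k) := by
  refine Finite.of_injective (β := ({1, -1} : Set (Cln n k))) (fun z => ⟨(z : SpinG n k), ?_⟩) ?_
  · rcases (z.2 : ((z : SpinG n k) : Cln n k) = 1 ∨ ((z : SpinG n k) : Cln n k) = -1) with h | h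
    · rw [h]; left; rfl
    · rw [h]; right; rfl
  · intro z z' h
    have h1 := congrArg Subtype.val h
    exact Subtype.ext (Subtype.ext h1)

lemma isCov_spin {m : ℕ} (hm : 2 ≤ m) :
    IsCov (mAlg (isoHom (1 : Matrix (Fin m) (Fin m) k))) (sAlg (Fin m) k) (rho (Fin m) k) where
  surj := rho_surjective
  fin := by
    rw [rho_ker]
    exact zS_finite (Fin m)
  pull := fun _ hf => rho_reg hf
  desc := by
    intro f hf
    obtain ⟨m1, hm1⟩ := exists_m1 (k := k) (n := Fin m) (by rw [Fintype.card_fin]; omega)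
    have hz : m1 ∈ (rho (Fin m) k).ker := by rw [rho_ker]; exact Or.inr hm1
    obtain ⟨F, hF, e⟩ := Pool.Agent.Helper96.SPN.nrm hm1 hf (fun g => by
      rw [map_mul, MonoidHom.mem_ker.mp hz, one_mul])
    have h1 : f = F := by
      funext x
      obtain ⟨g, rfl⟩ := rho_surjective (k := k) (n := Fin m) x
      exact congrFun e g
    rw [h1]
    exact hF
  irr := Pool.Agent.Helper72.SPN.spin_irr (by rw [Fintype.card_fin]; exact hm)
  rst := spin_rstable
  grp := spin_grpAlg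
  sep := by
    intro x y h
    by_contra hcon
    push Not at hcon
    apply h
    apply spin_coe_inj
    rw [← sub_eq_zero, ← Module.forall_dual_apply_eq_zero_iff k]
    intro φ
    rw [map_sub, sub_eq_zero]
    exact hcon _ (lin_mem φ)

/-- `-1` is a commutator -/
lemma exists_comm {m : ℕ} (hm : 3 ≤ m) : ∃ x y z : SpinG (Fin m) k, x * y = z * (y * x) ∧
    (z : Cln (Fin m) k) = -1 := by
  obtain ⟨c, hc⟩ := IsAlgClosed.exists_pow_nat_eq (-1 : k) (n := 2) two_pos
  let w : Fin m → (Fin m → k) := fun i => c • Pi.single i 1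
  have hw : ∀ i, w i ⬝ᵥ w i = -1 := by
    intro i
    show (c • Pi.single i 1 : Fin m → k) ⬝ᵥ (c • Pi.single i 1) = -1
    rw [smul_dotProduct, dotProduct_smul, smul_eq_mul, smul_eq_mul, ← mul_assoc, ← pow_two, hc,
      single_one_dotProduct, Pi.single_eq_same, mul_one]
  have hw' : ∀ i j, i ≠ j → ι (Qn (Fin m) k) (w i) * ι (Qn (Fin m) k) (w j)
      = -(ι (Qn (Fin m) k) (w j) * ι (Qn (Fin m) k) (w i)) := by
    intro i j hij
    have h1 := ι_mul_ι (w i) (w j)
    have h2 : w i ⬝ᵥ w j = 0 := by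
      show (c • Pi.single i 1 : Fin m → k) ⬝ᵥ (c • Pi.single j 1) = 0
      rw [smul_dotProduct, dotProduct_smul, single_one_dotProduct, Pi.single_eq_of_ne hij,
        smul_zero, smul_zero]
    rw [h2, mul_zero, map_zero] at h1
    exact eq_neg_of_add_eq_zero_left h1
  have hsq : ∀ i, ι (Qn (Fin m) k) (w i) * ι (Qn (Fin m) k) (w i) = -1 := by
    intro i
    rw [ι_sq, hw, map_neg, map_one]
  let i0 : Fin m := ⟨0, by omega⟩
  let i1 : Fin m := ⟨1, by omega⟩
  let i2 : Fin m := ⟨2, by omega⟩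
  have h01 : i0 ≠ i1 := by
    intro h
    have := congrArg Fin.val h
    simp [i0, i1] at this
  have h02 : i0 ≠ i2 := by
    intro h
    have := congrArg Fin.val h
    simp [i0, i2] at this
  have h12 : i1 ≠ i2 := by
    intro h
    have := congrArg Fin.val h
    simp [i1, i2] at this
  refine ⟨Pool.Agent.Helper72.SPN.mkS (w i0) (w i1) (hw _) (hw _),
    Pool.Agent.Helper72.SPN.mkS (w i1) (w i2) (hw _) (hw _),
    Pool.Agent.Helper72.SPN.mkS (w i0) (w i0) (hw _) (hw _), ?_, ?_⟩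
  · apply spin_coe_inj
    show (Pool.Agent.Helper72.SPN.mkS (w i0) (w i1) (hw _) (hw _) : Cln (Fin m) k)
        * (Pool.Agent.Helper72.SPN.mkS (w i1) (w i2) (hw _) (hw _) : Cln (Fin m) k)
      = (Pool.Agent.Helper72.SPN.mkS (w i0) (w i0) (hw _) (hw _) : Cln (Fin m) k)
        * ((Pool.Agent.Helper72.SPN.mkS (w i1) (w i2) (hw _) (hw _) : Cln (Fin m) k)
        * (Pool.Agent.Helper72.SPN.mkS (w i0) (w i1) (hw _) (hw _) : Cln (Fin m) k))
    simp only [Pool.Agent.Helper72.SPN.mkS_coe]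
    rw [hsq i0]
    set a := ι (Qn (Fin m) k) (w i0) with ha
    set b := ι (Qn (Fin m) k) (w i1) with hb
    set d := ι (Qn (Fin m) k) (w i2) with hd
    have e1 : a * b = -(b * a) := hw' _ _ h01
    have e2 : a * d = -(d * a) := hw' _ _ h02
    have e3 : b * d = -(d * b) := hw' _ _ h12
    have eb : b * b = -1 := hsq i1
    calc a * b * (b * d) = a * (b * b) * d := by simp only [mul_assoc]
      _ = -(a * d) := by rw [eb, mul_neg, mul_one, neg_mul]
      _ = d * a := by rw [e2, neg_neg]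
      _ = -1 * (b * d * (a * b)) := by
        have e4 : b * d * (a * b) = -(d * a) := by
          calc b * d * (a * b) = b * d * (-(b * a)) := by rw [e1]
            _ = -(b * d * b * a) := by rw [mul_neg]; simp only [mul_assoc]
            _ = -(-(d * b) * b * a) := by rw [← e3]
            _ = d * (b * b) * a := by
              simp only [neg_mul, neg_neg, mul_assoc]
            _ = -(d * a) := by rw [eb, mul_neg, mul_one, neg_mul]
        rw [e4, neg_mul, one_mul, neg_neg]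
  · rw [Pool.Agent.Helper72.SPN.mkS_coe, hsq]

/-- standard isomorphisms of special orthogonal groups are given by orthogonal matrices -/
lemma std_orth {m m' : ℕ} (hf : FormFacts (1 : Matrix (Fin m) (Fin m) k)) (hm : 1 ≤ m)
    {τ : IsoG (1 : Matrix (Fin m) (Fin m) k) ≃* IsoG (1 : Matrix (Fin m') (Fin m') k)}
    (hτ : IsStdIso τ) : ∃ a : Matrix (Fin m') (Fin m) k, aᵀ * a = 1 ∧ a * aᵀ = 1 ∧
      ∀ g, isoHom 1 (τ g) = a * isoHom 1 g * aᵀ := by
  obtain ⟨ε, a, b, hab, hba, h⟩ := hτ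
  have horth : ∀ {l : ℕ} (g : IsoG (1 : Matrix (Fin l) (Fin l) k)),
      (isoHom 1 g)ᵀ * isoHom 1 g = 1 := by
    intro l g
    have h' : (isoHom 1 g)ᵀ * 1 * isoHom 1 g = 1 := g.2
    rwa [Matrix.mul_one] at h'
  have h1 : ∀ g, isoHom 1 (τ g) * a = a * isoHom 1 g := by
    intro g
    have h2 := h g
    cases ε
    · exact h2
    · have h3 : isoHom 1 (τ g) * a * (isoHom 1 g)ᵀ = a := h2
      calc isoHom 1 (τ g) * a = isoHom 1 (τ g) * a * ((isoHom 1 g)ᵀ * isoHom 1 g) := by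
            rw [horth, Matrix.mul_one]
        _ = isoHom 1 (τ g) * a * (isoHom 1 g)ᵀ * isoHom 1 g := by simp only [Matrix.mul_assoc]
        _ = a * isoHom 1 g := by rw [h3]
  have h2 : ∀ g, (aᵀ * a) * isoHom 1 g = isoHom 1 g * (aᵀ * a) := by
    intro g
    have h3 : (isoHom 1 g)ᵀ * (aᵀ * a) * isoHom 1 g = aᵀ * a := by
      calc (isoHom 1 g)ᵀ * (aᵀ * a) * isoHom 1 g = (a * isoHom 1 g)ᵀ * (a * isoHom 1 g) := by
            rw [transpose_mul]; simp only [Matrix.mul_assoc]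
        _ = aᵀ * ((isoHom 1 (τ g))ᵀ * isoHom 1 (τ g)) * a := by
            rw [← h1, transpose_mul]; simp only [Matrix.mul_assoc]
        _ = aᵀ * a := by rw [horth, Matrix.mul_one]
    have h4 : isoHom 1 g * (isoHom 1 g)ᵀ = 1 := mul_eq_one_comm.mp (horth g)
    calc (aᵀ * a) * isoHom 1 g = (isoHom 1 g * (isoHom 1 g)ᵀ) * ((aᵀ * a) * isoHom 1 g) := by
          rw [h4, Matrix.one_mul]
      _ = isoHom 1 g * ((isoHom 1 g)ᵀ * (aᵀ * a) * isoHom 1 g) := by simp only [Matrix.mul_assoc]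
      _ = isoHom 1 g * (aᵀ * a) := by rw [h3]
  obtain ⟨c, hc⟩ := hf.comm _ h2
  have hc0 : c ≠ 0 := by
    rintro rfl
    have h5 : aᵀ * a * b * bᵀ = 1 := by
      calc aᵀ * a * b * bᵀ = aᵀ * (a * b) * bᵀ := by simp only [Matrix.mul_assoc]
        _ = (b * a)ᵀ := by rw [hab, Matrix.mul_one, transpose_mul]
        _ = 1 := by rw [hba, transpose_one]
    rw [hc, zero_smul, Matrix.zero_mul, Matrix.zero_mul] at h5
    have h6 := congrFun (congrFun h5 ⟨0, by omega⟩) ⟨0, by omega⟩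
    rw [Matrix.one_apply_eq] at h6
    exact zero_ne_one h6
  obtain ⟨d, hd⟩ := IsAlgClosed.exists_pow_nat_eq c (n := 2) two_pos
  have hd0 : d ≠ 0 := by
    rintro rfl
    rw [zero_pow two_ne_zero] at hd
    exact hc0 hd.symm
  have e1 : (d⁻¹ • a)ᵀ * (d⁻¹ • a) = 1 := by
    rw [transpose_smul, Matrix.smul_mul, Matrix.mul_smul, hc, smul_smul, smul_smul, ← hd]
    have : d⁻¹ * d⁻¹ * d ^ 2 = 1 := by field_simp
    rw [this, one_smul]
  have e2 : (d⁻¹ • a) * (d • b) = 1 := by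
    rw [Matrix.smul_mul, Matrix.mul_smul, smul_smul, inv_mul_cancel₀ hd0, one_smul, hab]
  have e3 : (d⁻¹ • a)ᵀ = d • b := by
    calc (d⁻¹ • a)ᵀ = (d⁻¹ • a)ᵀ * ((d⁻¹ • a) * (d • b)) := by rw [e2, Matrix.mul_one]
      _ = d • b := by rw [← Matrix.mul_assoc, e1, Matrix.one_mul]
  refine ⟨d⁻¹ • a, e1, by rw [e3, e2], fun g => ?_⟩
  rw [e3]
  calc isoHom 1 (τ g) = isoHom 1 (τ g) * ((d⁻¹ • a) * (d • b)) := by rw [e2, Matrix.mul_one]
    _ = d⁻¹ • (isoHom 1 (τ g) * a) * (d • b) := by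
        simp only [Matrix.smul_mul, Matrix.mul_smul, Matrix.mul_assoc]
    _ = (d⁻¹ • a) * isoHom 1 g * (d • b) := by
        rw [h1]
        simp only [Matrix.smul_mul, Matrix.mul_smul, Matrix.mul_assoc]

end Spin

end Pool.Agent.Helper97.SPN
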