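import Pool.Agent.Helper97.SPN.Fct

set_option autoImplicit false

/-!
# Spin covers: the type of factors and the class of isomorphisms
-/

namespace Pool.Agent.Helper97.SPN

open Matrix CliffordAlgebra Pool.Agent.Helper14.RG Pool.Agent.Helper97.CG
open Pool.Agent.Helper67.SPN

universe u

/-- A factor: the classical group `{x ∈ SL_n : xᵀ J x = J}` or the spin group `Spin_m`. -/
inductive Fct (k : Type u) : Type u
  | cl (n : ℕ) (J : Matrix (Fin n) (Fin n) k) : Fct k
  | sp (m : ℕ) : Fct k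

namespace Fct

variable {k : Type u}

/-- the dimension of the standard representation -/
def dim : Fct k → ℕ
  | cl n _ => n
  | sp m => m

/-- is it a spin group? -/
def IsSp : Fct k → Prop
  | cl _ _ => False
  | sp _ => True

variable [Field k]

/-- the matrix of the form -/
def frm : (F : Fct k) → Matrix (Fin F.dim) (Fin F.dim) k
  | cl _ J => J
  | sp _ => 1

/-- the group -/
def Grp : Fct k → Type u
  | cl _ J => IsoG J
  | sp m => SpinG (Fin m) k

instance instGroup : (F : Fct k) → Group F.Grp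
  | cl _ J => inferInstanceAs (Group (IsoG J))
  | sp m => inferInstanceAs (Group (SpinG (Fin m) k))

/-- the regular functions -/
def alg : (F : Fct k) → Subalgebra k (F.Grp → k)
  | cl _ J => mAlg (isoHom J)
  | sp m => sAlg (Fin m) k

/-- the allowed central subgroup: the centre of a classical group, `1, -1` for a spin group -/
def cen : (F : Fct k) → Subgroup F.Grp
  | cl _ J => Subgroup.center (IsoG J)
  | sp m => zS (Fin m) k

/-- the factors of the theorem -/
def Ok : Fct k → Prop
  | cl _ J => AU.Good J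
  | sp m => 7 ≤ m ∧ m ≠ 8

/-- the factors which are allowed when the automorphism is standard -/
def Ok3 : Fct k → Prop
  | cl n J => J = 0 ∨ (Jᵀ = -J ∧ J.det ≠ 0) ∨ (Jᵀ = J ∧ J.det ≠ 0 ∧ 3 ≤ n)
  | sp m => 3 ≤ m

lemma Ok.ok3 {F : Fct k} (h : F.Ok) : F.Ok3 := by
  cases F with
  | cl n J =>
    rcases h with h | h | ⟨h1, h2, h3, _⟩
    · exact Or.inl h
    · exact Or.inr (Or.inl h)
    · exact Or.inr (Or.inr ⟨h1, h2, by omega⟩)
  | sp m =>
    have h7 : 7 ≤ m := h.1
    show 3 ≤ m
    omega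

variable [CharZero k]

/-- the covering of the classical group -/
noncomputable def cov : (F : Fct k) → F.Grp →* IsoG F.frm
  | cl _ J => MonoidHom.id (IsoG J)
  | sp m => rho (Fin m) k

end Fct

section Facts

variable {k : Type u} [Field k]

lemma good_one {m : ℕ} (hm : 7 ≤ m ∧ m ≠ 8) : AU.Good (1 : Matrix (Fin m) (Fin m) k) :=
  Or.inr (Or.inr ⟨transpose_one, by rw [det_one]; exact one_ne_zero, hm.1, hm.2⟩)

lemma Fct.Ok.good {F : Fct k} (h : F.Ok) : AU.Good F.frm := by
  cases F with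
  | cl n J => exact h
  | sp m => exact good_one h

lemma cls_facts [IsAlgClosed k] [CharZero k] {n : ℕ} {J : Matrix (Fin n) (Fin n) k}
    (h : J = 0 ∨ (Jᵀ = -J ∧ J.det ≠ 0) ∨ (Jᵀ = J ∧ J.det ≠ 0 ∧ 3 ≤ n)) : J = 0 ∨ FormFacts J := by
  rcases h with h | ⟨h1, h2⟩ | ⟨h1, h2, h3⟩
  · exact Or.inl h
  · right
    have hf : IsForm (-1 : k) J := ⟨Or.inr rfl, by rw [h1, neg_smul, one_smul], h2⟩
    refine formFacts hf (fun h => ?_)
    exfalso
    have h4 : (2 : k) = 0 := by linear_combination -h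
    exact two_ne_zero h4
  · right
    have hf : IsForm (1 : k) J := ⟨Or.inl rfl, by rw [h1, one_smul], h2⟩
    exact formFacts hf (fun _ => h3)

lemma facts_one [IsAlgClosed k] [CharZero k] {m : ℕ} (hm : 3 ≤ m) :
    FormFacts (1 : Matrix (Fin m) (Fin m) k) :=
  formFacts (ε := 1) ⟨Or.inl rfl, by rw [transpose_one, one_smul], by
    rw [det_one]; exact one_ne_zero⟩ (fun _ => hm)

variable [IsAlgClosed k] [CharZero k]

lemma Fct.Ok3.facts {F : Fct k} (h : F.Ok3) : F.frm = 0 ∨ FormFacts F.frm := by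
  cases F with
  | cl n J => exact cls_facts h
  | sp m => exact Or.inr (facts_one (m := m) h)

lemma facts_irr {n : ℕ} {J : Matrix (Fin n) (Fin n) k} (h : J = 0 ∨ FormFacts J) :
    Irr (mAlg (isoHom J)) := by
  have : Infinite k := IsAlgClosed.instInfinite
  rcases h with h | h
  · rw [h]; exact irr_zero
  · exact h.irr

lemma Fct.Ok3.isCov {F : Fct k} (h : F.Ok3) : IsCov (mAlg (isoHom F.frm)) F.alg F.cov := by
  cases F with
  | cl n J => exact isCov_iso (facts_irr (cls_facts h))
  | sp m =>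
    have h3 : 3 ≤ m := h
    exact isCov_spin (m := m) (by omega)

lemma Fct.Ok3.fincen {F : Fct k} (h : F.Ok3) : Finite F.cen := by
  cases F with
  | cl n J =>
    rcases cls_facts h with h | h
    · show Finite (Subgroup.center (IsoG J))
      rw [h]; exact finite_center_zero
    · exact h.finite_center
  | sp m => exact zS_finite (Fin m)

omit [IsAlgClosed k] [CharZero k] in
lemma zS_le_center {n : Type} [Fintype n] : zS n k ≤ Subgroup.center (SpinG n k) := by
  intro z hz
  rw [Subgroup.mem_center_iff]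
  intro g
  apply Subtype.ext
  show (g : Cln n k) * (z : Cln n k) = (z : Cln n k) * (g : Cln n k)
  rcases (hz : (z : Cln n k) = 1 ∨ (z : Cln n k) = -1) with h | h
  · rw [h, mul_one, one_mul]
  · rw [h, mul_neg, neg_mul, mul_one, one_mul]

omit [IsAlgClosed k] [CharZero k] in
lemma Fct.cen_le (F : Fct k) : F.cen ≤ Subgroup.center F.Grp := by
  cases F with
  | cl n J => exact le_refl _
  | sp m => exact zS_le_center

omit [IsAlgClosed k] in
lemma Fct.cov_ker_le (F : Fct k) : F.cov.ker ≤ F.cen := by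
  cases F with
  | cl n J =>
    intro z hz
    have h1 : z = 1 := hz
    rw [h1]
    exact one_mem _
  | sp m => exact (rho_ker (n := Fin m) (k := k)).le

omit [IsAlgClosed k] [CharZero k] in
lemma zS_two {n : Type} [Fintype n] {z z' : SpinG n k} (hz : z ∈ zS n k) (hz' : z' ∈ zS n k)
    (h1 : z ≠ 1) : z' = 1 ∨ z' = z := by
  have h2 : (z : Cln n k) = -1 := by
    rcases (hz : (z : Cln n k) = 1 ∨ (z : Cln n k) = -1) with h | h
    · exact absurd (Subtype.ext h) h1
    · exact h
  rcases (hz' : (z' : Cln n k) = 1 ∨ (z' : Cln n k) = -1) with h | h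
  · exact Or.inl (Subtype.ext h)
  · exact Or.inr (Subtype.ext (h.trans h2.symm))

omit [IsAlgClosed k] in
/-- the elements of the kernel of a covering which are not trivial are equal -/
lemma Fct.ker_two (F : Fct k) {z z' : F.Grp} (hz : z ∈ F.cov.ker) (hz' : z' ∈ F.cov.ker)
    (h1 : z ≠ 1) : z' = 1 ∨ z' = z := by
  cases F with
  | cl n J => exact Or.inl hz'
  | sp m =>
    exact zS_two ((rho_ker (n := Fin m) (k := k)).le hz) ((rho_ker (n := Fin m) (k := k)).le hz') h1

omit [IsAlgClosed k] in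
lemma Fct.cov_inj_of_not_isSp (F : Fct k) (h : ¬ F.IsSp) : Function.Injective F.cov := by
  cases F with
  | cl n J => exact fun _ _ h => h
  | sp m => exact absurd trivial h

lemma Fct.Ok3.comm {F : Fct k} (h : F.Ok3) (hs : F.IsSp) : ∃ x y z : F.Grp, x * y = z * (y * x) ∧
    z ∈ F.cov.ker ∧ z ≠ 1 := by
  cases F with
  | cl n J => exact absurd hs id
  | sp m =>
    obtain ⟨x, y, z, e, hz⟩ := exists_comm (k := k) (m := m) h
    refine ⟨x, y, z, e, ?_, ?_⟩
    · have h1 : z ∈ (rho (Fin m) k).ker := by rw [rho_ker]; exact Or.inr hz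
      exact h1
    · rintro rfl
      have h2 : (1 : Cln (Fin m) k) = -1 := hz
      have h3 : algebraMap k (Cln (Fin m) k) 1 = algebraMap k (Cln (Fin m) k) (-1) := by
        rw [map_neg, map_one]; exact h2
      exact one_ne_neg_one' (algebraMap_inj (Qn (Fin m) k) h3)

end Facts

section Rel

variable {k : Type u} [Field k] [CharZero k]

/-- The class of isomorphisms of the factors: regular isomorphisms between factors of the same kind
which lie over a standard isomorphism of the classical groups. -/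
structure Fct.Rel (F F' : Fct k) (f : F.Grp ≃* F'.Grp) : Prop where
  std : ∃ τ : IsoG F.frm ≃* IsoG F'.frm, IsStdIso τ ∧ ∀ x, F'.cov (f x) = τ (F.cov x)
  typ : F.IsSp ↔ F'.IsSp
  reg : ∀ a ∈ F'.alg, (fun x => a (f x)) ∈ F.alg
  reg' : ∀ a ∈ F.alg, (fun x => a (f.symm x)) ∈ F'.alg

lemma Fct.Rel.refl (F : Fct k) : Fct.Rel F F (MulEquiv.refl F.Grp) where
  std := ⟨MulEquiv.refl _, IsStdIso.refl _, fun _ => rfl⟩
  typ := Iff.rfl
  reg := fun _ h => h
  reg' := fun _ h => h

lemma Fct.Rel.trans {F F' F'' : Fct k} {f : F.Grp ≃* F'.Grp} {g : F'.Grp ≃* F''.Grp}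
    (hf : Fct.Rel F F' f) (hg : Fct.Rel F' F'' g) : Fct.Rel F F'' (f.trans g) where
  std := by
    obtain ⟨τ, hτ, h1⟩ := hf.std
    obtain ⟨τ', hτ', h2⟩ := hg.std
    refine ⟨τ.trans τ', hτ.trans hτ', fun x => ?_⟩
    show F''.cov (g (f x)) = τ' (τ (F.cov x))
    rw [h2, h1]
  typ := hf.typ.trans hg.typ
  reg := fun a ha => hf.reg _ (hg.reg a ha)
  reg' := fun a ha => hg.reg' _ (hf.reg' a ha)

lemma spin_mem_zS {m m' : ℕ} (f : SpinG (Fin m) k ≃* SpinG (Fin m') k)
    (τ : IsoG (1 : Matrix (Fin m) (Fin m) k) ≃* IsoG (1 : Matrix (Fin m') (Fin m') k))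
    (h : ∀ x, rho (Fin m') k (f x) = τ (rho (Fin m) k x)) (z : SpinG (Fin m) k) :
    f z ∈ zS (Fin m') k ↔ z ∈ zS (Fin m) k := by
  rw [← rho_ker, ← rho_ker, MonoidHom.mem_ker, MonoidHom.mem_ker, h]
  exact map_eq_one_iff τ τ.injective

/-- isomorphisms of the class respect the central subgroups -/
lemma Fct.Rel.mem_cen {F F' : Fct k} {f : F.Grp ≃* F'.Grp} (hf : Fct.Rel F F' f) (z : F.Grp) :
    f z ∈ F'.cen ↔ z ∈ F.cen := by
  have hc : ∀ {G G' : Type u} [Group G] [Group G'] (f : G ≃* G') (z : G),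
      f z ∈ Subgroup.center G' ↔ z ∈ Subgroup.center G := by
    intro G G' _ _ f z
    rw [Subgroup.mem_center_iff, Subgroup.mem_center_iff]
    constructor
    · intro h g
      apply f.injective
      rw [map_mul, map_mul, h]
    · intro h g
      obtain ⟨g, rfl⟩ := f.surjective g
      rw [← map_mul, ← map_mul, h]
  cases F with
  | cl n J =>
    cases F' with
    | cl n' J' => exact hc f z
    | sp m' => exact absurd (hf.typ.mpr trivial) id
  | sp m =>
    cases F' with
    | cl n' J' => exact absurd (hf.typ.mp trivial) id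
    | sp m' =>
      obtain ⟨τ, -, h1⟩ := hf.std
      exact spin_mem_zS f τ h1 z

/-- standard isomorphisms of factors of the same kind lift -/
lemma Fct.exists_lift [IsAlgClosed k] {F F' : Fct k} (h : F.Ok3) (ht : F.IsSp ↔ F'.IsSp)
    (τ : IsoG F.frm ≃* IsoG F'.frm) (hτ : IsStdIso τ) :
    ∃ f : F.Grp ≃* F'.Grp, Fct.Rel F F' f ∧ ∀ x, F'.cov (f x) = τ (F.cov x) := by
  cases F with
  | cl n J =>
    cases F' with
    | cl n' J' =>
      exact ⟨τ, ⟨⟨τ, hτ, fun _ => rfl⟩, Iff.rfl, fun a ha => hτ.reg _ ha,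
        fun a ha => hτ.symm.reg _ ha⟩, fun _ => rfl⟩
    | sp m' => exact absurd (ht.mpr trivial) id
  | sp m =>
    cases F' with
    | cl n' J' => exact absurd (ht.mp trivial) id
    | sp m' =>
      have h3 : 3 ≤ m := h
      obtain ⟨a, ha, ha', h1⟩ := std_orth (m := m) (m' := m')
        (facts_one h3) (by omega) (τ := τ) hτ
      have h2 : ∀ x, rho (Fin m') k (Ta a ha ha' x) = τ (rho (Fin m) k x) := by
        intro x
        apply isoHom_inj 1
        exact (rho_Ta a ha ha' x).trans (h1 (rho (Fin m) k x)).symm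
      exact ⟨Ta a ha ha', ⟨⟨τ, hτ, h2⟩, Iff.rfl, fun f hf => Ta_reg a ha ha' hf,
        fun f hf => Ta_reg aᵀ (by rw [transpose_transpose, ha']) (by
          rw [transpose_transpose, ha]) hf⟩, h2⟩

end Rel

end Pool.Agent.Helper97.SPN
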