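import Pool.Agent.Helper97.SPN.Fct2
import Pool.Agent.Helper78.SPN.CCSF

set_option autoImplicit false

/-!
# Spin covers: the charts of the factors
-/

namespace Pool.Agent.Helper97.SPN

open Matrix CliffordAlgebra Pool.Agent.Helper14.RG Pool.Agent.Helper97.CG
open Pool.Agent.Helper67.SPN

universe u

/-- FIX: the fixed points of `T_a` -/
def ST_FIX (k : Type u) [Field k] [CharZero k] : Prop := ∀ (m : ℕ)
  (a E : Matrix (Fin m) (Fin m) k) (ha : aᵀ * a = 1) (ha' : a * aᵀ = 1) (h : Proj a E)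
  (N : ℕ), 0 < N → a ^ N = 1 → a * E = E → (∀ v : Fin m → k, a *ᵥ v = v → E *ᵥ v = v) →
  ∀ g : SpinG (Fin m) k, Ta a ha ha' g = g ↔ rho (Fin m) k g ∈ cm0 (isoHom 1) a E h

section Eig

variable {k : Type*} [Field k] [CharZero k] {n : Type} [Fintype n] [DecidableEq n]

/-- the projection to the eigenspace of the eigenvalue `1` -/
lemma exists_eig (a : Matrix n n k) (N : ℕ) (hN : 0 < N) (haN : a ^ N = 1) :
    ∃ E : Matrix n n k, Proj a E ∧ a * E = E ∧ ∀ v : n → k, a *ᵥ v = v → E *ᵥ v = v := by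
  have hN0 : (N : k) ≠ 0 := by exact_mod_cast hN.ne'
  let Sg : Matrix n n k := ∑ j ∈ Finset.range N, a ^ j
  have h1 : a * Sg = Sg := by
    have h2 : a * Sg = ∑ j ∈ Finset.range N, a ^ (j + 1) := by
      rw [Finset.mul_sum]
      exact Finset.sum_congr rfl fun j _ => (pow_succ' a j).symm
    have h3 := Finset.sum_range_succ (fun j => a ^ j) N
    have h4 := Finset.sum_range_succ' (fun j => a ^ j) N
    rw [h3, haN, pow_zero] at h4
    rw [h2]
    exact (add_right_cancel h4).symm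
  have h2 : ∀ j, a ^ j * Sg = Sg := by
    intro j
    induction j with
    | zero => rw [pow_zero, Matrix.one_mul]
    | succ j ih => rw [pow_succ, Matrix.mul_assoc, h1, ih]
  have h3 : Sg * Sg = (N : k) • Sg := by
    have h4 : Sg * Sg = ∑ j ∈ Finset.range N, a ^ j * Sg := Finset.sum_mul _ _ _
    rw [h4, Finset.sum_congr rfl fun j _ => h2 j, Finset.sum_const, Finset.card_range,
      Nat.cast_smul_eq_nsmul]
  refine ⟨(N : k)⁻¹ • Sg, ⟨?_, ?_⟩, ?_, ?_⟩
  · rw [Matrix.smul_mul, Matrix.mul_smul, h3, smul_smul, smul_smul, mul_assoc, inv_mul_cancel₀ hN0,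
      mul_one]
  · intro x hx
    have h4 : ∀ j, a ^ j * x = x * a ^ j := by
      intro j
      induction j with
      | zero => rw [pow_zero, Matrix.one_mul, Matrix.mul_one]
      | succ j ih => rw [pow_succ, Matrix.mul_assoc, hx, ← Matrix.mul_assoc, ih, Matrix.mul_assoc]
    rw [Matrix.smul_mul, Matrix.mul_smul]
    congr 1
    show (∑ j ∈ Finset.range N, a ^ j) * x = x * ∑ j ∈ Finset.range N, a ^ j
    rw [Finset.sum_mul, Finset.mul_sum]
    exact Finset.sum_congr rfl fun j _ => h4 j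
  · rw [Matrix.mul_smul, h1]
  · intro v hv
    have h4 : ∀ j, a ^ j *ᵥ v = v := by
      intro j
      induction j with
      | zero => rw [pow_zero, one_mulVec]
      | succ j ih => rw [pow_succ, ← mulVec_mulVec, hv, ih]
    have h5 : Sg *ᵥ v = (N : k) • v := by
      show (∑ j ∈ Finset.range N, a ^ j) *ᵥ v = (N : k) • v
      rw [Matrix.sum_mulVec, Finset.sum_congr rfl fun j _ => h4 j, Finset.sum_const,
        Finset.card_range, Nat.cast_smul_eq_nsmul]
    rw [smul_mulVec, h5, smul_smul, inv_mul_cancel₀ hN0, one_smul]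

end Eig

section Chart

variable {k : Type u} [Field k] [IsAlgClosed k] [CharZero k]

/-- two regular automorphisms over the same automorphism are equal -/
lemma spin_aut_unique {m : ℕ} (hm : 2 ≤ m) {T T' : SpinG (Fin m) k ≃* SpinG (Fin m) k}
    (hreg : ∀ a ∈ sAlg (Fin m) k, (fun x => a (T x)) ∈ sAlg (Fin m) k)
    (hreg' : ∀ a ∈ sAlg (Fin m) k, (fun x => a (T' x)) ∈ sAlg (Fin m) k)
    (h : ∀ x, rho (Fin m) k (T x) = rho (Fin m) k (T' x)) (x : SpinG (Fin m) k) : T x = T' x := by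
  have hirr : Irr (sAlg (Fin m) k) := Pool.Agent.Helper72.SPN.spin_irr (by
    rw [Fintype.card_fin]; exact hm)
  have hz : ∀ x, T x * (T' x)⁻¹ ∈ zS (Fin m) k := by
    intro x
    rw [← rho_ker, MonoidHom.mem_ker, map_mul, map_inv, h, mul_inv_cancel]
  have hne : (1 : Cln (Fin m) k) ≠ 0 := one_ne_zero
  obtain ⟨φ, hφ⟩ : ∃ φ : Cln (Fin m) k →ₗ[k] k, φ 1 ≠ 0 := by
    by_contra hcon
    push Not at hcon
    exact hne ((Module.forall_dual_apply_eq_zero_iff k (1 : Cln (Fin m) k)).mp hcon)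
  let β : SpinG (Fin m) k → k := fun x => φ ((T x * (T' x)⁻¹ : SpinG (Fin m) k) : Cln (Fin m) k)
  have hβ : β ∈ sAlg (Fin m) k :=
    spin_grpAlg.mul (sAlg (Fin m) k) (fun x => T x) (fun x => (T' x)⁻¹) hreg
      (fun b hb => hreg' _ (spin_grpAlg.2 b hb)) (lin_mem φ)
  have hv : ∀ x, β x = φ 1 ∨ β x = -φ 1 := by
    intro x
    rcases (hz x : ((T x * (T' x)⁻¹ : SpinG (Fin m) k) : Cln (Fin m) k) = 1 ∨
      ((T x * (T' x)⁻¹ : SpinG (Fin m) k) : Cln (Fin m) k) = -1) with h1 | h1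
    · left
      show φ _ = _
      rw [h1]
    · right
      show φ _ = _
      rw [h1, map_neg]
  have hc1 : (fun x => β x - φ 1) ∈ sAlg (Fin m) k :=
    (sAlg (Fin m) k).sub_mem hβ ((sAlg (Fin m) k).algebraMap_mem (φ 1))
  have hc2 : (fun x => β x + φ 1) ∈ sAlg (Fin m) k :=
    (sAlg (Fin m) k).add_mem hβ ((sAlg (Fin m) k).algebraMap_mem (φ 1))
  have hb2 : (fun x => β x + φ 1) ≠ 0 := by
    intro h0
    have h1 := congrFun h0 1
    have h2 : β 1 = φ 1 := by
      show φ ((T 1 * (T' 1)⁻¹ : SpinG (Fin m) k) : Cln (Fin m) k) = φ 1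
      rw [map_one, map_one, inv_one, mul_one]
      rfl
    have h3 : β 1 + φ 1 = 0 := h1
    rw [h2, ← two_mul] at h3
    exact hφ ((mul_eq_zero.mp h3).resolve_left two_ne_zero)
  have hb1 : (fun x => β x - φ 1) = 0 := by
    by_contra h0
    obtain ⟨y, hy1, hy2⟩ := hirr.2 _ hc1 _ hc2 h0 hb2
    rcases hv y with h1 | h1
    · apply hy1
      show β y - φ 1 = 0
      rw [h1, sub_self]
    · apply hy2
      show β y + φ 1 = 0
      rw [h1, neg_add_cancel]
  have hx : β x = φ 1 := sub_eq_zero.mp (congrFun hb1 x)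
  rcases (hz x : ((T x * (T' x)⁻¹ : SpinG (Fin m) k) : Cln (Fin m) k) = 1 ∨
    ((T x * (T' x)⁻¹ : SpinG (Fin m) k) : Cln (Fin m) k) = -1) with h1 | h1
  · have h2 : T x * (T' x)⁻¹ = 1 := Subtype.ext h1
    exact mul_inv_eq_one.mp h2
  · exfalso
    have h2 : β x = -φ 1 := by
      show φ _ = _
      rw [h1, map_neg]
    rw [hx] at h2
    have h3 : (2 : k) * φ 1 = 0 := by linear_combination h2
    exact hφ ((mul_eq_zero.mp h3).resolve_left two_ne_zero)

/-- The chart of a spin group for an automorphism of finite order modulo `1, -1`. -/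
theorem chart_sp (hOI : ST_OI k) (hFIX : ST_FIX k) {m : ℕ} (hm : 3 ≤ m)
    {T : SpinG (Fin m) k ≃* SpinG (Fin m) k}
    (τ : IsoG (1 : Matrix (Fin m) (Fin m) k) ≃* IsoG (1 : Matrix (Fin m) (Fin m) k))
    (hτ : IsStdIso τ) (hT : ∀ x, rho (Fin m) k (T x) = τ (rho (Fin m) k x))
    (hreg : ∀ a ∈ sAlg (Fin m) k, (fun x => a (T x)) ∈ sAlg (Fin m) k) (M : ℕ) (hM : 0 < M)
    (hfin : ∀ x, ∃ z ∈ zS (Fin m) k, T^[M] x = z * x) (H' : Subgroup (SpinG (Fin m) k))
    (hH' : ∀ g, g ∈ H' ↔ ∃ z ∈ zS (Fin m) k, T g = z * g) :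
    HasLChart (sAlg (Fin m) k) (fixSub T) H' := by
  have hf : FormFacts (1 : Matrix (Fin m) (Fin m) k) := facts_one hm
  obtain ⟨a, ha, ha', h1⟩ := std_orth hf (by omega) hτ
  have h2 : ∀ x, rho (Fin m) k (Ta a ha ha' x) = τ (rho (Fin m) k x) := by
    intro x
    apply isoHom_inj 1
    exact (rho_Ta a ha ha' x).trans (h1 (rho (Fin m) k x)).symm
  have hTa : ∀ x, T x = Ta a ha ha' x := spin_aut_unique (by omega) hreg
    (fun f hf => Ta_reg a ha ha' hf) (fun x => (hT x).trans (h2 x).symm)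
  -- the order of `a`
  have h3 : ∀ (j : ℕ) (x : SpinG (Fin m) k),
      isoHom 1 (rho (Fin m) k (T^[j] x)) * a ^ j = a ^ j * isoHom 1 (rho (Fin m) k x) := by
    intro j
    induction j with
    | zero => intro x; rw [pow_zero, Matrix.mul_one, Matrix.one_mul]; rfl
    | succ j ih =>
      intro x
      have h4 : isoHom 1 (rho (Fin m) k (T x)) * a = a * isoHom 1 (rho (Fin m) k x) := by
        rw [hT, h1, Matrix.mul_assoc, ha, Matrix.mul_one]
      rw [Function.iterate_succ_apply]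
      calc isoHom 1 (rho (Fin m) k (T^[j] (T x))) * a ^ (j + 1)
          = isoHom 1 (rho (Fin m) k (T^[j] (T x))) * a ^ j * a := by
            rw [pow_succ, Matrix.mul_assoc]
        _ = a ^ j * (isoHom 1 (rho (Fin m) k (T x)) * a) := by rw [ih, Matrix.mul_assoc]
        _ = a ^ (j + 1) * isoHom 1 (rho (Fin m) k x) := by
            rw [h4, pow_succ, Matrix.mul_assoc]
  have h4 : ∀ g : IsoG (1 : Matrix (Fin m) (Fin m) k), a ^ M * isoHom 1 g = isoHom 1 g * a ^ M := by
    intro g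
    obtain ⟨x, rfl⟩ := rho_surjective (k := k) (n := Fin m) g
    obtain ⟨z, hz, e⟩ := hfin x
    have h5 : rho (Fin m) k (T^[M] x) = rho (Fin m) k x := by
      have hz1 : rho (Fin m) k z = 1 := by
        rw [← MonoidHom.mem_ker, rho_ker]; exact hz
      rw [e, map_mul, hz1, one_mul]
    rw [← h3 M x, h5]
  obtain ⟨c, hc⟩ := hf.comm _ h4
  have h5 : (a ^ M)ᵀ * a ^ M = 1 := by
    have h6 : ∀ j : ℕ, (a ^ j)ᵀ * a ^ j = 1 := by
      intro j
      induction j with
      | zero => rw [pow_zero, transpose_one, Matrix.mul_one]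
      | succ j ih =>
        calc (a ^ (j + 1))ᵀ * a ^ (j + 1) = aᵀ * ((a ^ j)ᵀ * a ^ j) * a := by
              rw [pow_succ, transpose_mul]; simp only [Matrix.mul_assoc]
          _ = 1 := by rw [ih, Matrix.mul_one, ha]
    exact h6 M
  have h6 : a ^ (2 * M) = 1 := by
    have h7 : (a ^ M)ᵀ = a ^ M := by rw [hc, transpose_smul, transpose_one]
    rw [two_mul, pow_add]
    nth_rewrite 1 [← h7]
    exact h5
  obtain ⟨E, hE, hE1, hE2⟩ := exists_eig a (2 * M) (by omega) h6
  have hform : IsForm (1 : k) (1 : Matrix (Fin m) (Fin m) k) :=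
    ⟨Or.inl rfl, by rw [transpose_one, one_smul], by rw [det_one]; exact one_ne_zero⟩
  have h7 : HC0 (isoHom (1 : Matrix (Fin m) (Fin m) k)) a E hE :=
    hOI (Fin m) 1 a E hE hform (by rw [Matrix.mul_one, ha]) (2 * M) (by omega) h6 hE1 hE2
  have h8 := HasLChart.comap (rho (Fin m) k) rho_surjective (fun f hf => rho_reg hf) h7
  have e1 : fixSub T = (cm0 (isoHom 1) a E hE).comap (rho (Fin m) k) := by
    ext g
    rw [Subgroup.mem_comap, ← hFIX m a E ha ha' hE (2 * M) (by omega) h6 hE1 hE2 g, ← hTa]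
    rfl
  have e2 : H' = (cm (isoHom 1) a).comap (rho (Fin m) k) := by
    ext g
    rw [hH', Subgroup.mem_comap]
    have h9 : isoHom 1 (rho (Fin m) k (T g)) * a = a * isoHom 1 (rho (Fin m) k g) := by
      rw [hT, h1, Matrix.mul_assoc, ha, Matrix.mul_one]
    constructor
    · rintro ⟨z, hz, e⟩
      have hz1 : rho (Fin m) k z = 1 := by
        rw [← MonoidHom.mem_ker, rho_ker]; exact hz
      rw [e, map_mul, hz1, one_mul] at h9
      exact h9.symm
    · intro hg
      have h10 : a * isoHom 1 (rho (Fin m) k g) = isoHom 1 (rho (Fin m) k g) * a := hg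
      refine ⟨T g * g⁻¹, ?_, by rw [inv_mul_cancel_right]⟩
      have h11 : rho (Fin m) k (T g) = rho (Fin m) k g := by
        apply isoHom_inj 1
        calc isoHom 1 (rho (Fin m) k (T g)) = isoHom 1 (rho (Fin m) k (T g)) * (a * aᵀ) := by
              rw [ha', Matrix.mul_one]
          _ = isoHom 1 (rho (Fin m) k g) * (a * aᵀ) := by
              rw [← Matrix.mul_assoc, h9, h10, Matrix.mul_assoc]
          _ = isoHom 1 (rho (Fin m) k g) := by rw [ha', Matrix.mul_one]
      rw [← rho_ker, MonoidHom.mem_ker, map_mul, map_inv, h11, mul_inv_cancel]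
  rw [e1, e2]
  exact h8

end Chart

end Pool.Agent.Helper97.SPN
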