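import Pool.Agent.Helper97.SPN.Ctr

set_option autoImplicit false

/-!
# Spin covers: the assembly for factors
-/

namespace Pool.Agent.Helper97.SPN

open Matrix CliffordAlgebra Pool.Agent.Helper14.RG Pool.Agent.Helper97.CG
open Pool.Agent.Helper67.SPN

universe u w x

/-- Z: the assembly relative to central subgroups `Z i`. -/
def ST_Z : Prop := ∀ (k : Type u) [Field k] [IsAlgClosed k] [CharZero k] (ι : Type w) [Fintype ι]
  [DecidableEq ι] (S : ι → Type u) [∀ i, Group (S i)]
  (A : ∀ i, Subalgebra k (S i → k)), (∀ i, Irr (A i)) → (∀ i, RStable (A i)) →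
  (∀ i, Aff (A i)) → (∀ i, GrpAlg (A i)) →
  ∀ (P : ∀ i j, (S i ≃* S j) → Prop), (∀ i, P i i (MulEquiv.refl _)) →
  (∀ i j l (f : S i ≃* S j) (g : S j ≃* S l), P i j f → P j l g → P i l (f.trans g)) →
  (∀ i j (f : S i ≃* S j), P i j f → ∀ a ∈ A j, (fun x => a (f x)) ∈ A i) →
  (∀ i j (f : S i ≃* S j), P i j f → ∀ a ∈ A i, (fun x => a (f.symm x)) ∈ A j) →
  ∀ (Z : ∀ i, Subgroup (S i)), (∀ i, Z i ≤ Subgroup.center (S i)) → (∀ i, Finite (Z i)) →
  (∀ i j (f : S i ≃* S j), P i j f → ∀ x, f x ∈ Z j ↔ x ∈ Z i) →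
  ∀ (M : ℕ), 0 < M →
  (∀ i (T : S i ≃* S i), P i i T → (∀ x, ∃ z ∈ Z i, T^[M] x = z * x) →
    ∀ H' : Subgroup (S i), (∀ g, g ∈ H' ↔ ∃ z ∈ Z i, T g = z * g) →
      HasLChart (A i) (fixSub T) H') →
  (∀ i, HasLChart (A i) ⊥ (Z i)) →
  ∀ (Q : Type x) [Group Q] (π : (∀ i, S i) →* Q), Function.Surjective π →
  π.ker ≤ Subgroup.center (∀ i, S i) → (∀ g ∈ π.ker, ∀ i, g i ∈ Z i) →
  ∀ (σ : Q ≃* Q), (∀ x, σ^[M] x = x) →
  ∀ (p : Equiv.Perm ι) (τ : ∀ i, S (p i) ≃* S i), (∀ i, P _ _ (τ i)) →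
  (∀ g : ∀ i, S i, σ (π g) = π (fun i => τ i (g (p i)))) →
    RationalQuotient (quotAlg (prodAlg A) π : Set (Q → k)) (fixSub σ)

/-- AFF: the spin group is closed in the Clifford algebra. -/
def ST_AFFS (k : Type u) [Field k] : Prop := ∀ m : ℕ, 1 ≤ m → Aff (sAlg (Fin m) k)

section Main

variable {k : Type u} [Field k] [IsAlgClosed k] [CharZero k]

omit [IsAlgClosed k] [CharZero k] in
lemma Fct.Ok3.aff (hA : ST_AFFS k) {F : Fct k} (h : F.Ok3) : Aff F.alg := by
  cases F with
  | cl n J => exact iso_aff J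
  | sp m =>
    have h3 : 3 ≤ m := h
    exact hA m (by omega)

/-- The chart of a factor for an automorphism of finite order modulo the central subgroup. -/
theorem Fct.Ok3.chart (hOI : ST_OI k) (hFIX : ST_FIX k) {F : Fct k} (h : F.Ok3)
    {T : F.Grp ≃* F.Grp} (hT : Fct.Rel F F T) (M : ℕ) (hM : 0 < M)
    (hfin : ∀ x, ∃ z ∈ F.cen, T^[M] x = z * x) (H' : Subgroup F.Grp)
    (hH' : ∀ g, g ∈ H' ↔ ∃ z ∈ F.cen, T g = z * g) : HasLChart F.alg (fixSub T) H' := by
  cases F with
  | cl n J =>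
    obtain ⟨τ, hτ, h1⟩ := hT.std
    have h2 : (T : IsoG J ≃* IsoG J) = τ := by
      ext x : 1
      exact h1 x
    have hstd : IsStdIso (J := J) (J' := J) T := by rw [h2]; exact hτ
    have hmod : FinMod (G := IsoG J) T := ⟨M, hM, hfin⟩
    have e : H' = fixMod (G := IsoG J) T := by
      ext g
      exact hH' g
    rw [e]
    rcases cls_facts (J := J) h with h3 | h3
    · have key : ∀ (J' : Matrix (Fin n) (Fin n) k) (T' : IsoG J' ≃* IsoG J'), J' = 0 →
          IsStdIso T' → FinMod T' → HasLChart (mAlg (isoHom J')) (fixSub T') (fixMod T') := by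
        rintro J' T' rfl h5 h6
        exact chart_zero h5 h6
      exact key J T h3 hstd hmod
    · exact h3.chart hstd hmod
  | sp m =>
    obtain ⟨τ, hτ, h1⟩ := hT.std
    exact chart_sp hOI hFIX (m := m) h τ hτ h1 hT.reg M hM hfin H' hH'

theorem Fct.Ok3.cc {F : Fct k} (h : F.Ok3) : HasLChart F.alg ⊥ F.cen := by
  cases F with
  | cl n J =>
    rcases cls_facts (J := J) h with h3 | h3
    · have key : ∀ (J' : Matrix (Fin n) (Fin n) k), J' = 0 →
          HasLChart (mAlg (isoHom J')) ⊥ (Subgroup.center (IsoG J')) := by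
        rintro J' rfl
        exact cc_zero
      exact key J h3
    · exact h3.cc
  | sp m =>
    have h3 : 3 ≤ m := h
    exact Pool.Agent.Helper78.SPN.st_CCS Pool.Agent.Helper19.CG.st_LEVF
      Pool.Agent.Helper19.CG.st_LEVC (Pool.Agent.Helper97.CG.st_EQV k) (Fin m)
      (by rw [Fintype.card_fin]; omega) rho_entry_mem

/-- A choice of central subgroups for which the charts exist, for automorphisms of order `M` modulo
these subgroups. -/
structure CS (k : Type u) [Field k] [CharZero k] (M : ℕ) where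
  cen : ∀ F : Fct k, Subgroup F.Grp
  le : ∀ F, cen F ≤ Subgroup.center F.Grp
  fin : ∀ F : Fct k, F.Ok3 → Finite (cen F)
  mem : ∀ (F F' : Fct k) (f : F.Grp ≃* F'.Grp), Fct.Rel F F' f → ∀ x, f x ∈ cen F' ↔ x ∈ cen F
  chart : ∀ F : Fct k, F.Ok3 → ∀ T : F.Grp ≃* F.Grp, Fct.Rel F F T →
    (∀ x, ∃ z ∈ cen F, T^[M] x = z * x) → ∀ H' : Subgroup F.Grp,
    (∀ g, g ∈ H' ↔ ∃ z ∈ cen F, T g = z * g) → HasLChart F.alg (fixSub T) H'
  cc : ∀ F : Fct k, F.Ok3 → HasLChart F.alg ⊥ (cen F)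
  cl : ∀ (n : ℕ) (J : Matrix (Fin n) (Fin n) k),
    cen (.cl n J) = Subgroup.center (Fct.Grp (.cl n J))

/-- the centres of the classical groups and the subgroups `1, -1` of the spin groups -/
noncomputable def cs1 (hOI : ST_OI k) (hFIX : ST_FIX k) (M : ℕ) (hM : 0 < M) : CS k M where
  cen := Fct.cen
  le := Fct.cen_le
  fin := fun _ h => h.fincen
  mem := fun _ _ _ hf x => hf.mem_cen x
  chart := fun _ h _ hT hfin H' hH' => h.chart hOI hFIX hT M hM hfin H' hH'
  cc := fun _ h => h.cc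
  cl := fun _ _ => rfl

/-- CCC: the chart of the spin group, equivariant for the centre -/
def ST_CCC (k : Type u) [Field k] : Prop := ∀ m : ℕ, 3 ≤ m →
  HasLChart (sAlg (Fin m) k) ⊥ (Subgroup.center (SpinG (Fin m) k))

omit [IsAlgClosed k] [CharZero k] in
lemma mem_center_iso {G G' : Type*} [Group G] [Group G'] (f : G ≃* G') (z : G) :
    f z ∈ Subgroup.center G' ↔ z ∈ Subgroup.center G := by
  rw [Subgroup.mem_center_iff, Subgroup.mem_center_iff]
  constructor
  · intro h g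
    apply f.injective
    rw [map_mul, map_mul, h]
  · intro h g
    obtain ⟨g, rfl⟩ := f.surjective g
    rw [← map_mul, ← map_mul, h]

/-- the centres of all factors, for odd order -/
noncomputable def cs2 (hOI : ST_OI k) (hFIX : ST_FIX k) (hCCC : ST_CCC k) (M : ℕ) (hM : Odd M) :
    CS k M where
  cen := fun F => Subgroup.center F.Grp
  le := fun _ => le_refl _
  fin := by
    intro F h
    cases F with
    | cl n J => exact h.fincen
    | sp m => exact spin_center_finite (m := m) h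
  mem := fun _ _ f _ x => mem_center_iso f x
  chart := by
    intro F h T hT hfin H' hH'
    cases F with
    | cl n J => exact h.chart hOI hFIX hT M hM.pos hfin H' hH'
    | sp m =>
      obtain ⟨τ, hτ, h1⟩ := hT.std
      exact chart_sp_odd hOI hFIX (m := m) h τ hτ h1 hT.reg M hM hfin H' hH'
  cc := by
    intro F h
    cases F with
    | cl n J => exact h.cc
    | sp m => exact hCCC m h
  cl := fun _ _ => rfl

lemma perm_iff {ι : Type w} [Finite ι] (p : Equiv.Perm ι) (B : ι → Prop)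
    (h : ∀ i, B (p i) → B i) (i : ι) : B (p i) ↔ B i := by
  classical
  refine ⟨h i, fun hi => ?_⟩
  obtain ⟨n, hn, hp⟩ := (isOfFinOrder_of_finite p).exists_pow_eq_one
  have h1 : ∀ (j : ℕ) (i : ι), B ((p ^ j) i) → B i := by
    intro j
    induction j with
    | zero => intro i hi; exact hi
    | succ j ih =>
      intro i hi
      rw [pow_succ', Equiv.Perm.mul_apply] at hi
      exact ih i (h _ hi)
  obtain ⟨m, rfl⟩ : ∃ m, n = m + 1 := ⟨n - 1, by omega⟩
  apply h1 m (p i)
  have h2 : (p ^ m) (p i) = i := by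
    rw [← Equiv.Perm.mul_apply, ← pow_succ, hp]
    rfl
  rw [h2]
  exact hi

/-- The theorem for factors, when no element `-1` of a spin factor is in the kernel. -/
theorem fct_main {M : ℕ} (C : CS k M) (hM : 0 < M) (hAFF : ST_AFFS k) (hZ : ST_Z.{u, w, x})
    (hLFA : ST_LFA.{u, w, x}) (hLFE : ST_LFE.{u, w, x}) (hLFS : ST_LFS.{u, u, w, x})
    {ι : Type w} [Fintype ι] [DecidableEq ι] (F : ι → Fct k) (hok : ∀ i, (F i).Ok)
    {Q : Type x} [Group Q] (π : (∀ i, (F i).Grp) →* Q) (hπ : Function.Surjective π)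
    (hker : π.ker ≤ Subgroup.center (∀ i, (F i).Grp)) (hcen : ∀ g ∈ π.ker, ∀ i, g i ∈ C.cen (F i))
    (hnorm : ∀ i, ∀ z ∈ (F i).cov.ker, Pi.mulSingle i z ∈ π.ker → z = 1)
    (σ : Q ≃* Q) (hreg : ∀ f ∈ quotAlg (prodAlg fun i => (F i).alg) π,
      (fun q => f (σ q)) ∈ quotAlg (prodAlg fun i => (F i).alg) π)
    (hfin : ∀ x, σ^[M] x = x) :
    RationalQuotient (quotAlg (prodAlg fun i => (F i).alg) π : Set (Q → k)) (fixSub σ) := by
  obtain ⟨p, τ, hτ, h1⟩ := hLFA k ι (fun i => (F i).dim) (fun i => (F i).frm)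
    (fun i => (F i).Grp) (fun i => (F i).alg) (fun i => (F i).cov) (fun i => (hok i).good)
    (fun i => (hok i).ok3.facts) (fun i => (hok i).ok3.isCov) Q π hπ hker σ hreg
  -- spin factors go to spin factors
  have h2 : ∀ i, (F (p i)).IsSp → (F i).IsSp := by
    intro i hi
    by_contra hcon
    obtain ⟨x, y, z, e, hz, hz1⟩ := (hok (p i)).ok3.comm hi
    have h3 := hLFS k ι (fun i => IsoG (F i).frm) (fun i => (F i).Grp) (fun i => (F i).cov)
      (fun i => (hok i).ok3.isCov.surj) Q π σ p (fun i => τ i) h1 i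
      (Fct.cov_inj_of_not_isSp _ hcon) x y z e hz
    exact hz1 (hnorm (p i) z hz h3)
  have h3 : ∀ i, (F (p i)).IsSp ↔ (F i).IsSp := perm_iff p (fun i => (F i).IsSp) h2
  choose f hf hfc using fun i => Fct.exists_lift (hok (p i)).ok3 (h3 i) (τ i) (hτ i)
  -- exactness
  let T : (∀ i, (F i).Grp) →* (∀ i, (F i).Grp) :=
    { toFun := fun s i => f i (s (p i))
      map_one' := by funext i; exact map_one (f i)
      map_mul' := fun s t => by funext i; exact map_mul (f i) _ _ }
  have hTreg : ∀ a ∈ prodAlg (fun i => (F i).alg), (fun s => a (T s)) ∈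
      prodAlg (fun i => (F i).alg) := by
    intro a ha
    induction ha using Algebra.adjoin_induction with
    | mem x hx =>
      obtain ⟨i, b, hb, rfl⟩ := hx
      exact mem_prodAlg (fun i => (F i).alg) (p i) ((hf i).reg b hb)
    | algebraMap r => exact Subalgebra.algebraMap_mem _ r
    | add x y _ _ hx hy => exact add_mem hx hy
    | mul x y _ _ hx hy => exact mul_mem hx hy
  have hex := hLFE k ι (fun i => (F i).dim) (fun i => (F i).frm)
    (fun i => (F i).Grp) (fun i => (F i).alg) (fun i => (F i).cov) (fun i => (hok i).good)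
    (fun i => (hok i).ok3.facts) (fun i => (hok i).ok3.isCov) Q π hπ hker σ hreg T hTreg
    (fun s => h1 s (T s) (fun i => hfc i (s (p i))))
  exact hZ k ι (fun i => (F i).Grp) (fun i => (F i).alg) (fun i => (hok i).ok3.isCov.irr)
    (fun i => (hok i).ok3.isCov.rst) (fun i => (hok i).ok3.aff hAFF) (fun i => (hok i).ok3.isCov.grp)
    (fun i j f => Fct.Rel (F i) (F j) f) (fun i => Fct.Rel.refl _)
    (fun i j l f g hf hg => hf.trans hg) (fun i j f hf => hf.reg) (fun i j f hf => hf.reg')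
    (fun i => C.cen (F i)) (fun i => C.le (F i)) (fun i => C.fin _ (hok i).ok3)
    (fun i j f hf x => C.mem _ _ f hf x) M hM
    (fun i T hT hfin H' hH' => C.chart _ (hok i).ok3 T hT hfin H' hH')
    (fun i => C.cc _ (hok i).ok3) Q π hπ hker hcen σ hfin p f hf hex

end Main

end Pool.Agent.Helper97.SPN
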