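import Pool.Agent.Helper97.SPN.Fct4

set_option autoImplicit false

/-!
# Spin covers: normalisation (spin factors whose `-1` is in the kernel are replaced)
-/

namespace Pool.Agent.Helper97.SPN

open Matrix CliffordAlgebra Pool.Agent.Helper14.RG Pool.Agent.Helper97.CG
open Pool.Agent.Helper67.SPN

universe u w x

section Norm

variable {k : Type u} [Field k] [IsAlgClosed k] [CharZero k]

/-- replacing a factor by the classical group below it -/
lemma Fct.exists_down {M : ℕ} (C : CS k M) {F : Fct k} (h : F.Ok) (b : Prop) : ∃ (F' : Fct k) (ψ : F.Grp →* F'.Grp),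
    F'.Ok ∧ IsCov F'.alg F.alg ψ ∧ (∀ z ∈ C.cen F, ψ z ∈ C.cen F') ∧ ψ.ker ≤ F.cov.ker ∧
    (¬ b → ψ.ker = ⊥) ∧ (b → ∀ z' ∈ F'.cov.ker, z' = 1) ∧
    (¬ b → ∀ z' ∈ F'.cov.ker, ∃ z ∈ F.cov.ker, ψ z = z') := by
  by_cases hb : b
  · refine ⟨.cl F.dim F.frm, F.cov, h.good, h.ok3.isCov, ?_, le_refl _, fun h => absurd hb h, ?_,
      fun h => absurd hb h⟩
    · intro z hz
      have h1 := C.le F hz
      rw [C.cl]
      show F.cov z ∈ Subgroup.center (IsoG F.frm)
      rw [Subgroup.mem_center_iff] at h1 ⊢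
      intro g
      obtain ⟨s, rfl⟩ := h.ok3.isCov.surj g
      rw [← map_mul, ← map_mul, h1]
    · intro _ z' hz'
      exact hz'
  · refine ⟨F, MonoidHom.id _, h, isCov_id h.ok3.isCov.irr h.ok3.isCov.rst h.ok3.isCov.grp h.ok3.isCov.sep,
      fun z hz => hz, ?_, fun _ => ?_, fun h => absurd h hb, fun _ z' hz' => ⟨z', hz', rfl⟩⟩
    · intro z hz
      have h1 : z = 1 := hz
      rw [h1]
      exact one_mem _
    · rw [MonoidHom.ker_eq_bot_iff]
      exact fun _ _ h => h

/-- The theorem for factors. -/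
theorem fct_all {M : ℕ} (C : CS k M) (hM : 0 < M) (hAFF : ST_AFFS k) (hZ : ST_Z.{u, w, x})
    (hLFD : ST_LFD.{u, u, w}) (hLFA : ST_LFA.{u, w, x}) (hLFE : ST_LFE.{u, w, x})
    (hLFS : ST_LFS.{u, u, w, x})
    {ι : Type w} [Fintype ι] [DecidableEq ι] (F : ι → Fct k) (hok : ∀ i, (F i).Ok)
    {Q : Type x} [Group Q] (π : (∀ i, (F i).Grp) →* Q) (hπ : Function.Surjective π)
    (hker : π.ker ≤ Subgroup.center (∀ i, (F i).Grp)) (hcen : ∀ g ∈ π.ker, ∀ i, g i ∈ C.cen (F i))
    (σ : Q ≃* Q) (hreg : ∀ f ∈ quotAlg (prodAlg fun i => (F i).alg) π,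
      (fun q => f (σ q)) ∈ quotAlg (prodAlg fun i => (F i).alg) π)
    (hfin : ∀ x, σ^[M] x = x) :
    RationalQuotient (quotAlg (prodAlg fun i => (F i).alg) π : Set (Q → k)) (fixSub σ) := by
  classical
  choose F' ψ hok' hψ hψc hψk hψ0 hψ1 hψ2 using fun i =>
    Fct.exists_down C (hok i) (∀ z ∈ (F i).cov.ker, Pi.mulSingle i z ∈ π.ker)
  let Ψ : (∀ i, (F i).Grp) →* (∀ i, (F' i).Grp) :=
    { toFun := fun s i => ψ i (s i)
      map_one' := by funext i; exact map_one (ψ i)
      map_mul' := fun s t => by funext i; exact map_mul (ψ i) _ _ }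
  have hΨs : Function.Surjective Ψ := by
    intro t
    choose s hs using fun i => (hψ i).surj (t i)
    exact ⟨s, funext hs⟩
  have hΨ1 : ∀ i (z : (F i).Grp), Ψ (Pi.mulSingle i z) = Pi.mulSingle i (ψ i z) := by
    intro i z
    funext j
    show ψ j ((Pi.mulSingle i z : ∀ i, (F i).Grp) j) = _
    by_cases hj : j = i
    · subst hj
      rw [Pi.mulSingle_eq_same, Pi.mulSingle_eq_same]
    · rw [Pi.mulSingle_eq_of_ne hj, Pi.mulSingle_eq_of_ne hj, map_one]
  have hΨk : Ψ.ker ≤ π.ker := by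
    intro s hs
    refine Subgroup.pi_mem_of_mulSingle_mem s fun i => ?_
    have h1 : s i ∈ (ψ i).ker := congrFun (MonoidHom.mem_ker.mp hs) i
    by_cases hb : ∀ z ∈ (F i).cov.ker, Pi.mulSingle i z ∈ π.ker
    · exact hb _ (hψk i h1)
    · rw [hψ0 i hb, Subgroup.mem_bot] at h1
      rw [h1, Pi.mulSingle_one]
      exact one_mem _
  let π' : (∀ i, (F' i).Grp) →* Q := (Ψ.liftOfSurjective hΨs) ⟨π, hΨk⟩
  have hπ' : ∀ s, π' (Ψ s) = π s := fun s => MonoidHom.liftOfRightInverse_comp_apply _ _ _ _ s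
  have hset : (quotAlg (prodAlg fun i => (F i).alg) π : Set (Q → k))
      = (quotAlg (prodAlg fun i => (F' i).alg) π' : Set (Q → k)) := by
    ext f
    constructor
    · intro hf
      refine hLFD k ι (fun i => (F' i).Grp) (fun i => (F i).Grp) (fun i => (F' i).alg)
        (fun i => (F i).alg) ψ hψ (fun t => f (π' t)) ?_
      have h1 : (fun s : ∀ i, (F i).Grp => f (π' (fun i => ψ i (s i)))) = fun s => f (π s) := by
        funext s
        exact congrArg f (hπ' s)
      rw [h1]
      exact hf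
    · intro hf
      have h1 : ∀ b ∈ prodAlg (fun i => (F' i).alg), (fun s => b (Ψ s)) ∈
          prodAlg (fun i => (F i).alg) := by
        intro b hb
        induction hb using Algebra.adjoin_induction with
        | mem x hx =>
          obtain ⟨i, a, ha, rfl⟩ := hx
          exact mem_prodAlg (fun i => (F i).alg) i ((hψ i).pull a ha)
        | algebraMap r => exact Subalgebra.algebraMap_mem _ r
        | add x y _ _ hx hy => exact add_mem hx hy
        | mul x y _ _ hx hy => exact mul_mem hx hy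
      have h2 := h1 _ hf
      have h3 : (fun s : ∀ i, (F i).Grp => f (π' (Ψ s))) = fun s => f (π s) := by
        funext s
        rw [hπ']
      rw [h3] at h2
      exact h2
  rw [hset]
  have hsurj : Function.Surjective π' := by
    intro q
    obtain ⟨s, rfl⟩ := hπ q
    exact ⟨Ψ s, hπ' s⟩
  have hker' : π'.ker ≤ Subgroup.center (∀ i, (F' i).Grp) := by
    intro t ht
    obtain ⟨s, rfl⟩ := hΨs t
    have h1 : s ∈ π.ker := by
      rw [MonoidHom.mem_ker, ← hπ']
      exact ht
    have h2 := hker h1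
    rw [Subgroup.mem_center_iff] at h2 ⊢
    intro t'
    obtain ⟨s', rfl⟩ := hΨs t'
    rw [← map_mul, ← map_mul, h2]
  refine fct_main C hM hAFF hZ hLFA hLFE hLFS F' hok' π' hsurj hker' ?_ ?_ σ ?_ hfin
  · intro t ht i
    obtain ⟨s, rfl⟩ := hΨs t
    have h1 : s ∈ π.ker := by
      rw [MonoidHom.mem_ker, ← hπ']
      exact ht
    exact hψc i _ (hcen s h1 i)
  · intro i z' hz' hz1
    by_cases hb : ∀ z ∈ (F i).cov.ker, Pi.mulSingle i z ∈ π.ker
    · exact hψ1 i hb z' hz'
    · obtain ⟨z, hz, rfl⟩ := hψ2 i hb z' hz'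
      by_contra hne
      apply hb
      intro y hy
      have h1 : Pi.mulSingle i z ∈ π.ker := by
        rw [MonoidHom.mem_ker, ← hπ', hΨ1]
        exact hz1
      have hz0 : z ≠ 1 := by
        rintro rfl
        exact hne (map_one _)
      rcases (F i).ker_two hz hy hz0 with h2 | h2
      · rw [h2, Pi.mulSingle_one]
        exact one_mem _
      · rw [h2]
        exact h1
  · intro f hf
    have h1 : f ∈ (quotAlg (prodAlg fun i => (F i).alg) π : Set (Q → k)) := by
      rw [hset]; exact hf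
    have h2 : (fun q => f (σ q)) ∈ (quotAlg (prodAlg fun i => (F i).alg) π : Set (Q → k)) :=
      hreg f h1
    rw [hset] at h2
    exact h2

end Norm

end Pool.Agent.Helper97.SPN
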