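import Pool.Agent.Helper97.SPN.Ev.Cs

set_option autoImplicit false

/-!
# Spin covers: from factors to the product of classical groups and spin groups
-/

namespace Pool.Agent.Helper97.SPN

open Matrix CliffordAlgebra Pool.Agent.Helper14.RG Pool.Agent.Helper97.CG
open Pool.Agent.Helper67.SPN

universe u v w x

section Fin

variable {k : Type u} [Field k] {ι : Type v} {κ : Type w} {n : ι → ℕ}
  {J : ∀ i, Matrix (Fin (n i)) (Fin (n i)) k} {m : κ → ℕ}

/-- the factors -/
def fcts (J : ∀ i, Matrix (Fin (n i)) (Fin (n i)) k) (m : κ → ℕ) : ι ⊕ κ → Fct k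
  | Sum.inl i => .cl (n i) (J i)
  | Sum.inr j => .sp (m j)

/-- the product of the factors -/
def fctsEquiv (J : ∀ i, Matrix (Fin (n i)) (Fin (n i)) k) (m : κ → ℕ) :
    (∀ x, (fcts J m x).Grp) ≃* (∀ i, IsoG (J i)) × (∀ j, SpinG (Fin (m j)) k) where
  toFun s := (fun i => s (Sum.inl i), fun j => s (Sum.inr j))
  invFun g := fun x => match x with
    | Sum.inl i => g.1 i
    | Sum.inr j => g.2 j
  left_inv s := by
    funext x
    cases x <;> rfl
  right_inv g := rfl
  map_mul' s t := rfl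

/-- the regular functions -/
def regGen (J : ∀ i, Matrix (Fin (n i)) (Fin (n i)) k) (m : κ → ℕ) :
    Set ((∀ i, IsoG (J i)) × (∀ j, SpinG (Fin (m j)) k) → k) :=
  {e | (∃ (i : ι) (a b : Fin (n i)), e = fun g => isoHom (J i) (g.1 i) a b) ∨
    ∃ (j : κ) (φ : Cln (Fin (m j)) k →ₗ[k] k), e = fun g => φ (g.2 j : Cln (Fin (m j)) k)}

lemma alg_to (J : ∀ i, Matrix (Fin (n i)) (Fin (n i)) k) (m : κ → ℕ) [Fintype ι] [Fintype κ]
    [DecidableEq ι] [DecidableEq κ] {f : (∀ x, (fcts J m x).Grp) → k}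
    (hf : f ∈ prodAlg fun x => (fcts J m x).alg) :
    (fun g => f ((fctsEquiv J m).symm g)) ∈ Algebra.adjoin k (regGen J m) := by
  induction hf using Algebra.adjoin_induction with
  | mem e he =>
    obtain ⟨y, a, ha, rfl⟩ := he
    cases y with
    | inl i =>
      have ha' : a ∈ mAlg (isoHom (J i)) := ha
      exact mAlg_comp (J i) _ (fun g : (∀ i, IsoG (J i)) × (∀ j, SpinG (Fin (m j)) k) => g.1 i)
        (fun a b => Algebra.subset_adjoin (Or.inl ⟨i, a, b, rfl⟩)) ha'
    | inr j =>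
      have ha' : a ∈ sAlg (Fin (m j)) k := ha
      exact sAlg_comp (Algebra.adjoin k (regGen J m))
        (fun g : (∀ i, IsoG (J i)) × (∀ j, SpinG (Fin (m j)) k) => g.2 j)
        (fun φ => Algebra.subset_adjoin (Or.inr ⟨j, φ, rfl⟩)) ha'
  | algebraMap r => exact Subalgebra.algebraMap_mem _ r
  | add a b _ _ ha hb => exact add_mem ha hb
  | mul a b _ _ ha hb => exact mul_mem ha hb

lemma alg_of (J : ∀ i, Matrix (Fin (n i)) (Fin (n i)) k) (m : κ → ℕ) [Fintype ι] [Fintype κ]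
    [DecidableEq ι] [DecidableEq κ] {f : (∀ i, IsoG (J i)) × (∀ j, SpinG (Fin (m j)) k) → k}
    (hf : f ∈ Algebra.adjoin k (regGen J m)) :
    (fun s => f (fctsEquiv J m s)) ∈ prodAlg fun x => (fcts J m x).alg := by
  induction hf using Algebra.adjoin_induction with
  | mem e he =>
    rcases he with ⟨i, a, b, rfl⟩ | ⟨j, φ, rfl⟩
    · exact mem_prodAlg (fun x => (fcts J m x).alg) (Sum.inl i) (iso_entry_mem (J i) a b)
    · exact mem_prodAlg (fun x => (fcts J m x).alg) (Sum.inr j) (lin_mem φ)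
  | algebraMap r => exact Subalgebra.algebraMap_mem _ r
  | add a b _ _ ha hb => exact add_mem ha hb
  | mul a b _ _ ha hb => exact mul_mem ha hb

variable [IsAlgClosed k] [CharZero k] [Fintype ι] [Fintype κ] [DecidableEq ι] [DecidableEq κ]

omit [IsAlgClosed k] [CharZero k] in
lemma quot_set (J : ∀ i, Matrix (Fin (n i)) (Fin (n i)) k) (m : κ → ℕ) {G : Type x} [Group G]
    (π : (∀ i, IsoG (J i)) × (∀ j, SpinG (Fin (m j)) k) →* G) :
    (quotAlg (prodAlg fun x => (fcts J m x).alg) (π.comp (fctsEquiv J m).toMonoidHom) : Set (G → k))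
      = {f : G → k | f ∘ π ∈ Algebra.adjoin k (regGen J m)} := by
  ext f
  constructor
  · intro hf
    have h1 := alg_to J m (f := fun s => f (π.comp (fctsEquiv J m).toMonoidHom s)) hf
    have h2 : (fun g => f (π.comp (fctsEquiv J m).toMonoidHom ((fctsEquiv J m).symm g)))
        = f ∘ π := by
      funext g
      show f (π (fctsEquiv J m ((fctsEquiv J m).symm g))) = f (π g)
      rw [MulEquiv.apply_symm_apply]
    rw [h2] at h1
    exact h1
  · intro hf
    exact alg_of J m (f := f ∘ π) hf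

omit [IsAlgClosed k] [CharZero k] [Fintype ι] [Fintype κ] [DecidableEq ι] [DecidableEq κ] in
lemma ker_central (J : ∀ i, Matrix (Fin (n i)) (Fin (n i)) k) (m : κ → ℕ) {G : Type x} [Group G]
    (π : (∀ i, IsoG (J i)) × (∀ j, SpinG (Fin (m j)) k) →* G)
    (hker : π.ker ≤ Subgroup.center _) :
    (π.comp (fctsEquiv J m).toMonoidHom).ker ≤ Subgroup.center (∀ x, (fcts J m x).Grp) := by
  intro s hs
  have h1 : fctsEquiv J m s ∈ π.ker := hs
  have h2 := hker h1
  rw [Subgroup.mem_center_iff] at h2 ⊢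
  intro t
  apply (fctsEquiv J m).injective
  rw [map_mul, map_mul, h2]

omit [Fintype ι] [Fintype κ] in
/-- Either `4` does not divide the order, or the components in the spin groups of the kernel are
`1` or `-1`. -/
lemma exists_cs (hOI : ST_OI k) (hOI1 : ST_OI1 k) (hII : ST_II k) (hFIX : ST_FIX k)
    (hCCC : ST_CCC k)
    (J : ∀ i, Matrix (Fin (n i)) (Fin (n i)) k) (m : κ → ℕ) {G : Type x} [Group G]
    (π : (∀ i, IsoG (J i)) × (∀ j, SpinG (Fin (m j)) k) →* G)
    (hker : π.ker ≤ Subgroup.center _) (M : ℕ) (hM : 0 < M)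
    (hspin : ¬ 4 ∣ M ∨ ∀ z ∈ π.ker, ∀ j,
      (z.2 j : Cln (Fin (m j)) k) = 1 ∨ (z.2 j : Cln (Fin (m j)) k) = -1) :
    ∃ C : CS k M, ∀ g ∈ (π.comp (fctsEquiv J m).toMonoidHom).ker, ∀ x, g x ∈ C.cen (fcts J m x) := by
  rcases hspin with h4 | hspin
  · refine ⟨cs3 hOI hOI1 hII hFIX hCCC M hM h4, fun s hs y => ?_⟩
    exact center_apply (ker_central J m π hker hs) y
  · refine ⟨cs1 hOI hFIX M hM, fun s hs y => ?_⟩
    cases y with
    | inl i =>
      exact center_apply (ker_central J m π hker hs) (Sum.inl i)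
    | inr j =>
      have h1 : fctsEquiv J m s ∈ π.ker := hs
      exact hspin _ h1 j

/-- The theorem for products of classical groups and spin groups. -/
theorem spin_groups (hOI : ST_OI k) (hOI1 : ST_OI1 k) (hII : ST_II k) (hFIX : ST_FIX k)
    (hCCC : ST_CCC k) (hAFF : ST_AFFS k)
    (hZ : ST_Z.{u, max v w, x}) (hLFD : ST_LFD.{u, u, max v w}) (hLFA : ST_LFA.{u, max v w, x})
    (hLFE : ST_LFE.{u, max v w, x}) (hLFS : ST_LFS.{u, u, max v w, x})
    (hJ : ∀ i, AU.Good (J i)) (hm : ∀ j, 7 ≤ m j ∧ m j ≠ 8) {G : Type x} [Group G]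
    (π : (∀ i, IsoG (J i)) × (∀ j, SpinG (Fin (m j)) k) →* G) (hπ : Function.Surjective π)
    (hker : π.ker ≤ Subgroup.center _) (σ : G ≃* G)
    (hreg : ∀ f : G → k, f ∘ π ∈ Algebra.adjoin k (regGen J m) →
      f ∘ σ ∘ π ∈ Algebra.adjoin k (regGen J m))
    (M : ℕ) (hM : 0 < M) (hfin : ∀ x, σ^[M] x = x)
    (hspin : ¬ 4 ∣ M ∨ ∀ z ∈ π.ker, ∀ j,
      (z.2 j : Cln (Fin (m j)) k) = 1 ∨ (z.2 j : Cln (Fin (m j)) k) = -1) :
    RationalQuotient {f : G → k | f ∘ π ∈ Algebra.adjoin k (regGen J m)} (fixSub σ) := by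
  obtain ⟨C, hC⟩ := exists_cs hOI hOI1 hII hFIX hCCC J m π hker M hM hspin
  have hok : ∀ x, (fcts J m x).Ok := by
    intro x
    cases x with
    | inl i => exact hJ i
    | inr j => exact hm j
  have main := fct_all C hM hAFF hZ hLFD hLFA hLFE hLFS (fcts J m) hok
    (π.comp (fctsEquiv J m).toMonoidHom) (hπ.comp (fctsEquiv J m).surjective)
    (ker_central J m π hker) hC σ ?_ hfin
  · rw [quot_set] at main
    exact main
  · intro f hf
    have h1 : f ∈ {f : G → k | f ∘ π ∈ Algebra.adjoin k (regGen J m)} := by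
      rw [← quot_set]; exact hf
    have h2 : (fun q => f (σ q)) ∈ {f : G → k | f ∘ π ∈ Algebra.adjoin k (regGen J m)} :=
      hreg f h1
    rw [← quot_set] at h2
    exact h2

end Fin

end Pool.Agent.Helper97.SPN
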