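import Pool.Agent.Helper97.SPN.Fin
import Pool.Agent.Helper89.SPN.OI
import Pool.Agent.Helper89.SPN.ON
import Pool.Agent.Helper89.SPN.OT
import Pool.Agent.Helper96.SPN.OW
import Pool.Agent.Helper59.SPN.OP
import Pool.Agent.Helper67.SPN.OL
import Pool.Agent.Helper67.SPN.Fix
import Pool.Agent.Helper18.SPN.LFS
import Pool.Agent.Helper89.SPN.LFA
import Pool.Agent.Helper89.SPN.LFE
import Pool.Agent.Helper96.SPN.LFD
import Pool.Agent.Helper67.SPN.AffS
import Pool.Agent.Helper14.SPN.Z3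
import Pool.Agent.Helper78.SPN.CCZ
import Pool.Agent.Helper97.CG.Facts

set_option autoImplicit false

/-!
# Spin covers: the rows put together
-/

namespace Pool.Agent.Helper97.SPN

open Matrix CliffordAlgebra Pool.Agent.Helper14.RG Pool.Agent.Helper97.CG
open Pool.Agent.Helper67.SPN

universe u v w x

theorem oi_all (k : Type u) [Field k] [IsAlgClosed k] [CharZero k] : ST_OI k := by
  have hEQV : ST_EQV k := st_EQV k
  have hREFL : ST_REFL k := Pool.Agent.Helper19.CG.st_REFL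
  have hOW : ST_OW k := st_OW hEQV hREFL
  have hOT : ST_OT k := st_OT
  have hOL : ST_OL k := st_OL Pool.Agent.Helper19.CG.st_LEVF Pool.Agent.Helper19.CG.st_LEVC
  exact st_OI hOT (st_ON hOW hOT) st_OP hOL (Pool.Agent.Helper61.CG.st_GLC k) st_NF1

theorem ii_all (k : Type u) [Field k] [IsAlgClosed k] [CharZero k] : ST_II k :=
  (all_II (k := k)).2.2.2

theorem oi1_all (k : Type u) [Field k] [IsAlgClosed k] [CharZero k] : ST_OI1 k := by
  have hEQV : ST_EQV k := st_EQV k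
  have hREFL : ST_REFL k := Pool.Agent.Helper19.CG.st_REFL
  have hOT : ST_OT1 k := st_OT1
  have hOL : ST_OL1 k := st_OL1 Pool.Agent.Helper19.CG.st_LEVF Pool.Agent.Helper19.CG.st_LEVC
  exact st_OI1 (oi_all k) hOT (st_ON1 (st_OW1 hEQV hREFL) hOT) st_OP1 hOL
    (Pool.Agent.Helper61.CG.st_GLC k) st_NF1

theorem ccc_all (k : Type u) [Field k] [IsAlgClosed k] [CharZero k] : ST_CCC k :=
  fun m hm => Pool.Agent.Helper78.SPN.ccz_center m (by omega) fun _ hz => (facts_one hm).center hz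

theorem affs_all (k : Type u) [Field k] [IsAlgClosed k] [CharZero k] : ST_AFFS k :=
  fun _ _ => spin_aff_all

theorem fix_all (k : Type u) [Field k] [IsAlgClosed k] [CharZero k] : ST_FIX k :=
  fun _ a E ha ha' h N hN haN h1 h2 g => Pool.Agent.Helper67.SPN.fix_iff a E ha ha' h N hN haN h1 h2 g

theorem z_all : ST_Z.{u, w, x} := by
  intro k _ _ _ ι _ _ S _ A h1 h2 h3 h4 P h5 h6 h7 h8 Z h9 h10 h11 M hM h12 h13 Q _ π h14 h15 h16
    σ h18 p τ h19 h20
  exact Pool.Agent.Helper14.SPN.st_Z k ι S A h1 h2 h3 h4 P h5 h6 h7 h8 Z h9 h10 h11 M hM h12 h13 Q π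
    h14 h15 h16 σ h18 p τ h19 h20

theorem spin_final {k : Type u} [Field k] {ι : Type v} {κ : Type w} {n : ι → ℕ}
    {J : ∀ i, Matrix (Fin (n i)) (Fin (n i)) k} {m : κ → ℕ}
    [IsAlgClosed k] [CharZero k] [Fintype ι] [Fintype κ] [DecidableEq ι] [DecidableEq κ]
    (hJ : ∀ i, AU.Good (J i)) (hm : ∀ j, 7 ≤ m j ∧ m j ≠ 8) {G : Type x} [Group G]
    (π : (∀ i, IsoG (J i)) × (∀ j, SpinG (Fin (m j)) k) →* G) (hπ : Function.Surjective π)
    (hker : π.ker ≤ Subgroup.center _) (σ : G ≃* G)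
    (hreg : ∀ f : G → k, f ∘ π ∈ Algebra.adjoin k (regGen J m) →
      f ∘ σ ∘ π ∈ Algebra.adjoin k (regGen J m))
    (M : ℕ) (hM : 0 < M) (hfin : ∀ x, σ^[M] x = x)
    (hspin : ¬ 4 ∣ M ∨ ∀ z ∈ π.ker, ∀ j,
      (z.2 j : Cln (Fin (m j)) k) = 1 ∨ (z.2 j : Cln (Fin (m j)) k) = -1) :
    RationalQuotient {f : G → k | f ∘ π ∈ Algebra.adjoin k (regGen J m)} (fixSub σ) :=
  spin_groups (oi_all k) (oi1_all k) (ii_all k) (fix_all k) (ccc_all k) (affs_all k) z_all st_LFD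
    (Pool.Agent.Helper89.SPN.st_LFA st_LFD) Pool.Agent.Helper89.SPN.st_LFE st_LFS hJ hm π hπ hker σ
    hreg M hM hfin hspin

end Pool.Agent.Helper97.SPN
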