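import Pool.Agent.Helper97.SPN.Stmts
import Pool.Agent.Helper67.SPN.Defs
import Pool.Agent.Helper14.RG.AU.All

/-!
# Spin covers: coverings of classical groups, statements of the second part (MP_005e41)
-/

set_option autoImplicit false

namespace Pool.Agent.Helper97.SPN

open Matrix Pool.Agent.Helper14.RG Pool.Agent.Helper97.CG Pool.Agent.Helper67.SPN

universe u v w x

section Defs

variable {k : Type*} [Field k]

/-- `φ : S → G` is a covering of algebraic groups, `B` and `A` the algebras of regular functions of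
`G` and `S`. -/
structure IsCov {G S : Type*} [Group G] [Group S] (B : Subalgebra k (G → k))
    (A : Subalgebra k (S → k)) (φ : S →* G) : Prop where
  surj : Function.Surjective φ
  fin : Finite φ.ker
  pull : ∀ f ∈ B, (fun s => f (φ s)) ∈ A
  desc : ∀ f : G → k, (fun s => f (φ s)) ∈ A → f ∈ B
  irr : Irr A
  rst : RStable A
  grp : GrpAlg A
  sep : ∀ x y : S, x ≠ y → ∃ a ∈ A, a x ≠ a y

/-- Pull-back of charts along a surjective homomorphism (with `q0`, `t` composed with `φ`). -/
theorem HasLChart.comap {G S : Type*} [Group G] [Group S] {A : Subalgebra k (G → k)}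
    {B : Subalgebra k (S → k)} {H H' : Subgroup G} (φ : S →* G) (hφ : Function.Surjective φ)
    (hpull : ∀ f ∈ A, (fun s => f (φ s)) ∈ B) (h : HasLChart A H H') :
    HasLChart B (H.comap φ) (H'.comap φ) := by
  obtain ⟨N, hN, hD, ⟨ch⟩⟩ := h
  refine ⟨N, hN, hD, ⟨?_⟩⟩
  exact
    { hH := Subgroup.comap_mono ch.hH
      q0 := fun s => ch.q0 (φ s)
      q0_mem := hpull _ ch.q0_mem
      q0_ne := by
        intro h0
        apply ch.q0_ne
        funext g
        obtain ⟨s, rfl⟩ := hφ g
        exact congrFun h0 s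
      t := fun s => ch.t (φ s)
      treg := by
        intro j
        obtain ⟨a, ha, b, hb, hab⟩ := ch.treg j
        exact ⟨_, hpull a ha, _, hpull b hb, fun s hs => hab (φ s) hs⟩
      sep := by
        intro s s' h1 h2 h3
        obtain ⟨h, hh, e⟩ := ch.sep (φ s) (φ s') h1 h2 h3
        refine ⟨s⁻¹ * s', ?_, by group⟩
        rw [Subgroup.mem_comap, map_mul, map_inv, e, inv_mul_cancel_left]
        exact hh
      dom := by
        intro P hP
        obtain ⟨g, h1, h2⟩ := ch.dom P hP
        obtain ⟨s, rfl⟩ := hφ g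
        exact ⟨s, h1, h2⟩
      inv := by
        intro h hh s hs j
        rw [map_mul]
        exact ch.inv (φ h) hh (φ s) hs j
      equiv := by
        intro h hh
        obtain ⟨R, hR⟩ := ch.equiv (φ h) hh
        refine ⟨R, fun s hs => ?_⟩
        rw [map_mul]
        exact hR (φ s) hs }

end Defs

/-- LFD: descent for products of coverings. Proof: a function `b` in `prodAlg A` is a sum of
products of functions of the components; average over the finite group `∏ (φ i).ker` (product of
the averages of the components); the average of a function in `A i` over `(φ i).ker` is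
`f (φ i x)` with `f` in `B i` by `desc`. -/
def ST_LFD : Prop := ∀ (k : Type u) [Field k] [CharZero k] (ι : Type w) [Fintype ι] [DecidableEq ι]
  (G S : ι → Type v) [∀ i, Group (G i)] [∀ i, Group (S i)] (B : ∀ i, Subalgebra k (G i → k))
  (A : ∀ i, Subalgebra k (S i → k)) (φ : ∀ i, S i →* G i), (∀ i, IsCov (B i) (A i) (φ i)) →
  ∀ f : (∀ i, G i) → k, (fun s : ∀ i, S i => f (fun i => φ i (s i))) ∈ prodAlg A → f ∈ prodAlg B

/-- LFA: an automorphism of a quotient `Q` of the product of the coverings `S i` acts on the adjoint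
group as a standard automorphism which permutes the factors. Proof: with `Φ = ∏ φ i`:
`s` is central iff `Φ s` is central (`t ↦ [s, t]` has values in the finite group `ker Φ`, so it is
constant by `irr_const`, `GrpAlg`, `sep`); `π s` is central iff `s` is central (same argument with
`sep_quot`, or with the finite group `π.ker`); so there is `πad : ∏ IsoG (J i) → Q ⧸ center Q` with
`πad (Φ s) = mk (π s)`, its kernel is the centre; `σad` from `QuotientGroup.congr`; it is regular by
LFD; then `Setup.exists_tau`, `Setup.exact` (as in `intrinsic_of_facts`, `intrinsic_good`). -/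
def ST_LFA : Prop := ∀ (k : Type u) [Field k] [IsAlgClosed k] [CharZero k] (ι : Type w) [Fintype ι]
  [DecidableEq ι] (n : ι → ℕ) (J : ∀ i, Matrix (Fin (n i)) (Fin (n i)) k) (S : ι → Type u)
  [∀ i, Group (S i)] (A : ∀ i, Subalgebra k (S i → k)) (φ : ∀ i, S i →* IsoG (J i)),
  (∀ i, AU.Good (J i)) → (∀ i, J i = 0 ∨ FormFacts (J i)) →
  (∀ i, IsCov (mAlg (isoHom (J i))) (A i) (φ i)) →
  ∀ (Q : Type x) [Group Q] (π : (∀ i, S i) →* Q), Function.Surjective π →
  π.ker ≤ Subgroup.center (∀ i, S i) → ∀ σ : Q ≃* Q,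
  (∀ f ∈ quotAlg (prodAlg A) π, (fun q => f (σ q)) ∈ quotAlg (prodAlg A) π) →
  ∃ (p : Equiv.Perm ι) (τ : ∀ i, IsoG (J (p i)) ≃* IsoG (J i)), (∀ i, IsStdIso (τ i)) ∧
    ∀ s t : ∀ i, S i, (∀ i, φ i (t i) = τ i (φ (p i) (s (p i)))) →
      σ (π s) * (π t)⁻¹ ∈ Subgroup.center Q

/-- LFE: exactness of a lift. Proof: as `Setup.exact`: `ζ s = σ (π s) * (π (T s))⁻¹` is a
homomorphism with values in the finite group `center Q` (`π s` is central iff `Φ s` is central,
`finite_center_prod`), and `ζ` is trivial since `prodAlg A` is irreducible. -/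
def ST_LFE : Prop := ∀ (k : Type u) [Field k] [IsAlgClosed k] [CharZero k] (ι : Type w) [Fintype ι]
  [DecidableEq ι] (n : ι → ℕ) (J : ∀ i, Matrix (Fin (n i)) (Fin (n i)) k) (S : ι → Type u)
  [∀ i, Group (S i)] (A : ∀ i, Subalgebra k (S i → k)) (φ : ∀ i, S i →* IsoG (J i)),
  (∀ i, AU.Good (J i)) → (∀ i, J i = 0 ∨ FormFacts (J i)) →
  (∀ i, IsCov (mAlg (isoHom (J i))) (A i) (φ i)) →
  ∀ (Q : Type x) [Group Q] (π : (∀ i, S i) →* Q), Function.Surjective π →
  π.ker ≤ Subgroup.center (∀ i, S i) → ∀ σ : Q ≃* Q,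
  (∀ f ∈ quotAlg (prodAlg A) π, (fun q => f (σ q)) ∈ quotAlg (prodAlg A) π) →
  ∀ T : (∀ i, S i) →* (∀ i, S i), (∀ a ∈ prodAlg A, (fun s => a (T s)) ∈ prodAlg A) →
    (∀ s, σ (π s) * (π (T s))⁻¹ ∈ Subgroup.center Q) → ∀ s, σ (π s) = π (T s)

/-- LFS: no automorphism maps a spin factor to a classical one, if `-1` of the spin factor is not in
the kernel: if `x y = z y x` in `S (p i)`, and `φ i` is injective, then `Pi.mulSingle (p i) z` is in
`ker π` as soon as `z` is in `ker (φ (p i))`. Proof: choose `t`, `t'` with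
`φ i (t i) = τ i (φ (p i) (s (p i)))` for `s = mulSingle (p i) x`, `s' = mulSingle (p i) y` (`t j = 1`
for `j ≠ i`); `t t' = t' t`, so `σ (π [s, s']) = 1`. -/
def ST_LFS : Prop := ∀ (k : Type u) [Field k] (ι : Type w) [Fintype ι]
  [DecidableEq ι] (G S : ι → Type v) [∀ i, Group (G i)] [∀ i, Group (S i)] (φ : ∀ i, S i →* G i),
  (∀ i, Function.Surjective (φ i)) →
  ∀ (Q : Type x) [Group Q] (π : (∀ i, S i) →* Q), ∀ σ : Q ≃* Q,
  ∀ (p : Equiv.Perm ι) (τ : ∀ i, G (p i) ≃* G i),
  (∀ s t : ∀ i, S i, (∀ i, φ i (t i) = τ i (φ (p i) (s (p i)))) →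
      σ (π s) * (π t)⁻¹ ∈ Subgroup.center Q) →
  ∀ i, Function.Injective (φ i) → ∀ x y z : S (p i), x * y = z * (y * x) →
    z ∈ (φ (p i)).ker → Pi.mulSingle (p i) z ∈ π.ker

/-- CCS: the chart of the spin group itself, equivariant under `1, -1`. Proof: `Helper79/CG/CC`
(Siegel big cell of `SO_n`), pulled back along `rho`, with one coordinate replaced by the function
`z` of row ZFN, `z² = det α ∘ rho`, `z (-g) = - z g`. -/
def ST_CCS : Prop := ∀ (k : Type u) [Field k] [IsAlgClosed k] [CharZero k] (n : ℕ), 5 ≤ n →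
  ∀ Z : Subgroup (SpinG (Fin n) k), (∀ z, z ∈ Z ↔ (z : Cln (Fin n) k) = 1 ∨
    (z : Cln (Fin n) k) = -1) → HasLChart (sAlg (Fin n) k) ⊥ Z

end Pool.Agent.Helper97.SPN
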