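import Pool.Agent.Helper97.SPN.Rows

set_option autoImplicit false

/-!
# Spin covers: standard automorphisms
-/

namespace Pool.Agent.Helper97.SPN

open Matrix CliffordAlgebra Pool.Agent.Helper14.RG Pool.Agent.Helper97.CG
open Pool.Agent.Helper67.SPN

universe u v w x

section Types

variable {k : Type u} [Field k] [IsAlgClosed k] [CharZero k]

/-- The theorem for factors and isomorphisms of the class `Fct.Rel`. -/
theorem fct_types {M : ℕ} (C : CS k M) (hM : 0 < M) (hAFF : ST_AFFS k) (hZ : ST_Z.{u, w, x})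
    {ι : Type w} [Fintype ι] [DecidableEq ι] (F : ι → Fct k) (hok : ∀ i, (F i).Ok3)
    {Q : Type x} [Group Q] (π : (∀ i, (F i).Grp) →* Q) (hπ : Function.Surjective π)
    (hker : π.ker ≤ Subgroup.center (∀ i, (F i).Grp)) (hcen : ∀ g ∈ π.ker, ∀ i, g i ∈ C.cen (F i))
    (σ : Q ≃* Q) (hfin : ∀ x, σ^[M] x = x)
    (p : Equiv.Perm ι) (τ : ∀ i, (F (p i)).Grp ≃* (F i).Grp)
    (hτ : ∀ i, Fct.Rel (F (p i)) (F i) (τ i))
    (hσ : ∀ g : ∀ i, (F i).Grp, σ (π g) = π (fun i => τ i (g (p i)))) :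
    RationalQuotient (quotAlg (prodAlg fun i => (F i).alg) π : Set (Q → k)) (fixSub σ) :=
  hZ k ι (fun i => (F i).Grp) (fun i => (F i).alg) (fun i => (hok i).isCov.irr)
    (fun i => (hok i).isCov.rst) (fun i => (hok i).aff hAFF) (fun i => (hok i).isCov.grp)
    (fun i j f => Fct.Rel (F i) (F j) f) (fun i => Fct.Rel.refl _)
    (fun i j l f g hf hg => hf.trans hg) (fun i j f hf => hf.reg) (fun i j f hf => hf.reg')
    (fun i => C.cen (F i)) (fun i => C.le (F i)) (fun i => C.fin _ (hok i))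
    (fun i j f hf x => C.mem _ _ f hf x) M hM
    (fun i T hT hfin H' hH' => C.chart _ (hok i) T hT hfin H' hH')
    (fun i => C.cc _ (hok i)) Q π hπ hker hcen σ hfin p τ hτ hσ

end Types

section SpinStd

variable {k : Type u} [Field k] [CharZero k]

/-- An isomorphism of spin groups is standard if it is the restriction of an isomorphism of the
Clifford algebras which maps vectors onto vectors. -/
def SpinStd {m m' : ℕ} (τ : SpinG (Fin m) k ≃* SpinG (Fin m') k) : Prop :=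
  ∃ f : Cln (Fin m) k ≃ₐ[k] Cln (Fin m') k,
    (∀ v, ∃ w, f (ι (Qn (Fin m) k) v) = ι (Qn (Fin m') k) w) ∧
    (∀ w, ∃ v, f (ι (Qn (Fin m) k) v) = ι (Qn (Fin m') k) w) ∧
    ∀ h : SpinG (Fin m) k, (τ h : Cln (Fin m') k) = f (h : Cln (Fin m) k)

lemma orth_of_dot {m m' : ℕ} {a : Matrix (Fin m') (Fin m) k}
    (h : ∀ v : Fin m → k, (a *ᵥ v) ⬝ᵥ (a *ᵥ v) = v ⬝ᵥ v) : aᵀ * a = 1 := by
  have h1 : ∀ v w : Fin m → k, (a *ᵥ v) ⬝ᵥ (a *ᵥ w) = v ⬝ᵥ w := by
    intro v w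
    have e := h (v + w)
    rw [mulVec_add, add_dotProduct, dotProduct_add, dotProduct_add, h v, h w, add_dotProduct,
      dotProduct_add, dotProduct_add, dotProduct_comm (a *ᵥ w) (a *ᵥ v), dotProduct_comm w v] at e
    have e2 : (2 : k) * ((a *ᵥ v) ⬝ᵥ (a *ᵥ w)) = 2 * (v ⬝ᵥ w) := by linear_combination e
    exact mul_left_cancel₀ two_ne_zero e2
  ext i j
  have h2 := h1 (Pi.single i 1) (Pi.single j 1)
  rw [mulVec_single_one, mulVec_single_one, single_one_dotProduct] at h2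
  rw [Matrix.mul_apply', Matrix.one_apply]
  have h3 : (fun l => aᵀ i l) ⬝ᵥ (fun l => a l j) = a.col i ⬝ᵥ a.col j := rfl
  rw [h3, h2, Pi.single_apply]
  
lemma SpinStd.exists_orth {m m' : ℕ} {τ : SpinG (Fin m) k ≃* SpinG (Fin m') k}
    (h : SpinStd τ) : ∃ (a : Matrix (Fin m') (Fin m) k) (ha : aᵀ * a = 1) (ha' : a * aᵀ = 1),
      ∀ x, τ x = Ta a ha ha' x := by
  obtain ⟨f, h1, h2, h3⟩ := h
  choose A hA using h1
  choose B hB using h2
  have hinj : ∀ {l : ℕ} {v w : Fin l → k}, ι (Qn (Fin l) k) v = ι (Qn (Fin l) k) w → v = w :=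
    fun h => ι_injective _ h
  let L : (Fin m → k) →ₗ[k] (Fin m' → k) :=
    { toFun := A
      map_add' := fun v w => hinj (by rw [← hA, map_add, map_add, hA, hA, map_add])
      map_smul' := fun c v => hinj (by
        rw [← hA, LinearMap.map_smul, map_smul, hA, RingHom.id_apply, LinearMap.map_smul]) }
  have hL : ∀ v, L.toMatrix' *ᵥ v = A v := fun v => LinearMap.toMatrix'_mulVec L v
  have hdot : ∀ v, (A v) ⬝ᵥ (A v) = v ⬝ᵥ v := by
    intro v
    apply algebraMap_inj (Qn (Fin m') k)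
    rw [← ι_sq, ← hA, ← map_mul, ι_sq, AlgEquiv.commutes]
  have ha : L.toMatrix'ᵀ * L.toMatrix' = 1 := orth_of_dot fun v => by rw [hL, hdot]
  let L' : (Fin m' → k) →ₗ[k] (Fin m → k) :=
    { toFun := B
      map_add' := fun v w => hinj (f.injective (by
        rw [hB, map_add, map_add, map_add, hB, hB]))
      map_smul' := fun c v => hinj (f.injective (by
        rw [hB, RingHom.id_apply, LinearMap.map_smul, LinearMap.map_smul, map_smul, hB])) }
  have hL' : ∀ v, L'.toMatrix' *ᵥ v = B v := fun v => LinearMap.toMatrix'_mulVec L' v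
  have hAB : L.toMatrix' * L'.toMatrix' = 1 := by
    apply Matrix.mulVec_injective
    funext v
    rw [← mulVec_mulVec, hL', hL, one_mulVec]
    apply hinj
    rw [← hA, hB]
  have ht : L.toMatrix'ᵀ = L'.toMatrix' := by
    calc L.toMatrix'ᵀ = L.toMatrix'ᵀ * (L.toMatrix' * L'.toMatrix') := by
          rw [hAB, Matrix.mul_one]
      _ = L'.toMatrix' := by rw [← Matrix.mul_assoc, ha, Matrix.one_mul]
  have ha' : L.toMatrix' * L.toMatrix'ᵀ = 1 := by rw [ht, hAB]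
  refine ⟨L.toMatrix', ha, ha', fun x => ?_⟩
  apply spin_coe_inj
  rw [h3, Ta_coe]
  have e : (f : Cln (Fin m) k →ₐ[k] Cln (Fin m') k) = mapA L.toMatrix' ha := by
    apply CliffordAlgebra.hom_ext
    refine LinearMap.ext fun v => ?_
    show f (ι (Qn (Fin m) k) v) = mapA L.toMatrix' ha (ι (Qn (Fin m) k) v)
    rw [mapA_ι, hL, hA]
  exact AlgHom.congr_fun e (x : Cln (Fin m) k)

omit [CharZero k] in
lemma exists_conj {m m' : ℕ} {a : Matrix (Fin m') (Fin m) k} (ha : aᵀ * a = 1)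
    (ha' : a * aᵀ = 1) :
    ∃ e : IsoG (1 : Matrix (Fin m) (Fin m) k) ≃* IsoG (1 : Matrix (Fin m') (Fin m') k),
      IsStdIso e ∧ ∀ x, isoHom 1 (e x) = a * isoHom 1 x * aᵀ := by
  obtain ⟨e, he⟩ : ∃ e : IsoG (1 : Matrix (Fin m) (Fin m) k) ≃* IsoG (1 : Matrix (Fin m') (Fin m') k),
      ∀ x, isoHom 1 (e x) = a * isoHom 1 x * aᵀ := by
    have key : ∀ J' : Matrix (Fin m') (Fin m') k,
        J' = aᵀᵀ * (1 : Matrix (Fin m) (Fin m) k) * aᵀ →
        ∃ e : IsoG (1 : Matrix (Fin m) (Fin m) k) ≃* IsoG J',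
          ∀ x, isoHom J' (e x) = a * isoHom (1 : Matrix (Fin m) (Fin m) k) x * aᵀ := by
      intro J' hJ'
      subst hJ'
      exact ⟨Pool.Agent.Helper79.CG.conjIso 1 aᵀ a ha ha', fun x => rfl⟩
    exact key 1 (by rw [transpose_transpose, Matrix.mul_one, ha'])
  refine ⟨e, ⟨false, a, aᵀ, ha', ha, fun g => ?_⟩, he⟩
  rw [stdRel_false, he, Matrix.mul_assoc, ha, Matrix.mul_one]

lemma SpinStd.rel {m m' : ℕ} {τ : SpinG (Fin m) k ≃* SpinG (Fin m') k} (h : SpinStd τ) :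
    Fct.Rel (.sp m) (.sp m') τ := by
  obtain ⟨a, ha, ha', h1⟩ := h.exists_orth
  have e : τ = Ta a ha ha' := by
    ext x : 1
    exact h1 x
  subst e
  obtain ⟨e, he, he2⟩ := exists_conj ha ha'
  refine ⟨⟨e, he, fun x => ?_⟩, Iff.rfl,
    fun f hf => Ta_reg a ha ha' hf, fun f hf => Ta_reg aᵀ (by rw [transpose_transpose, ha']) (by
      rw [transpose_transpose, ha]) hf⟩
  apply isoHom_inj 1
  exact (rho_Ta a ha ha' x).trans (he2 (rho (Fin m) k x)).symm

end SpinStd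

section Final

variable {k : Type u} [Field k] {ι : Type v} {κ : Type w} {n : ι → ℕ}
  {J : ∀ i, Matrix (Fin (n i)) (Fin (n i)) k} {m : κ → ℕ}
  [IsAlgClosed k] [CharZero k] [Fintype ι] [Fintype κ] [DecidableEq ι] [DecidableEq κ]

/-- the isomorphisms of the factors -/
def fctsIso (p : Equiv.Perm ι) (q : Equiv.Perm κ) (τ : ∀ i, IsoG (J (p i)) ≃* IsoG (J i))
    (τ' : ∀ j, SpinG (Fin (m (q j))) k ≃* SpinG (Fin (m j)) k) :
    ∀ x, (fcts J m (Equiv.sumCongr p q x)).Grp ≃* (fcts J m x).Grp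
  | Sum.inl i => τ i
  | Sum.inr j => τ' j

/-- The theorem for standard automorphisms. -/
theorem spin_types (hJ : ∀ i, J i = 0 ∨ ((J i)ᵀ = -J i ∧ (J i).det ≠ 0) ∨
      ((J i)ᵀ = J i ∧ (J i).det ≠ 0 ∧ 3 ≤ n i)) (hm : ∀ j, 3 ≤ m j) {G : Type x} [Group G]
    (π : (∀ i, IsoG (J i)) × (∀ j, SpinG (Fin (m j)) k) →* G) (hπ : Function.Surjective π)
    (hker : π.ker ≤ Subgroup.center _)
    (σ : G ≃* G) (p : Equiv.Perm ι) (q : Equiv.Perm κ) (τ : ∀ i, IsoG (J (p i)) ≃* IsoG (J i))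
    (τ' : ∀ j, SpinG (Fin (m (q j))) k ≃* SpinG (Fin (m j)) k) (hτ : ∀ i, IsStdIso (τ i))
    (hτ' : ∀ j, SpinStd (τ' j))
    (hσ : ∀ g h, σ (π (g, h)) = π (fun i => τ i (g (p i)), fun j => τ' j (h (q j))))
    (M : ℕ) (hM : 0 < M) (hfin : ∀ x, σ^[M] x = x)
    (hspin : ¬ 4 ∣ M ∨ ∀ z ∈ π.ker, ∀ j,
      (z.2 j : Cln (Fin (m j)) k) = 1 ∨ (z.2 j : Cln (Fin (m j)) k) = -1) :
    RationalQuotient {f : G → k | f ∘ π ∈ Algebra.adjoin k (regGen J m)} (fixSub σ) := by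
  obtain ⟨C, hC⟩ := exists_cs (oi_all k) (oi1_all k) (ii_all k) (fix_all k) (ccc_all k) J m π hker M hM
    hspin
  have hok : ∀ x, (fcts J m x).Ok3 := by
    intro x
    cases x with
    | inl i => exact hJ i
    | inr j => exact hm j
  have main := fct_types C hM (affs_all k) z_all (fcts J m) hok
    (π.comp (fctsEquiv J m).toMonoidHom) (hπ.comp (fctsEquiv J m).surjective)
    (ker_central J m π hker) hC σ hfin (Equiv.sumCongr p q) (fctsIso p q τ τ') ?_ ?_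
  · rw [quot_set] at main
    exact main
  · intro y
    cases y with
    | inl i =>
      exact (⟨⟨τ i, hτ i, fun _ => rfl⟩, Iff.rfl, fun a ha => (hτ i).reg _ ha,
        fun a ha => (hτ i).symm.reg _ ha⟩ : Fct.Rel (.cl _ (J (p i))) (.cl _ (J i)) (τ i))
    | inr j => exact (hτ' j).rel
  · intro s
    exact hσ (fctsEquiv J m s).1 (fctsEquiv J m s).2

end Final

end Pool.Agent.Helper97.SPN
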